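import Pool.Agent.W547.OC.Multi

/-!
# All exchange relations from one relation for each half system
-/

set_option linter.unusedSectionVars false
set_option linter.unusedVariables false

namespace Pool.Agent.W547.OC

open NumberField Pool.Agent.H204R3.CM Pool.Agent.W547.KB Equiv Module

noncomputable section

variable {T : CycleTheory} {L : Type} [Field L] [NumberField L] [IsCMField L] [IsGalois ℚ L]
  {j : L →+* ℂ}

theorem toggle_compl (σ : L ≃ₐ[ℚ] L) (S : Set (L ≃ₐ[ℚ] L)) : toggle σ Sᶜ = (toggle σ S)ᶜ := by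
  ext τ
  rw [Set.mem_compl_iff, mem_toggle, mem_toggle, Set.mem_compl_iff]
  tauto

theorem toggle_toggle (σ : L ≃ₐ[ℚ] L) (S : Set (L ≃ₐ[ℚ] L)) : toggle σ (toggle σ S) = S := by
  ext τ
  rw [mem_toggle, mem_toggle]
  tauto

theorem toggle_sdiff {S κ : Set (L ≃ₐ[ℚ] L)} (hS : IsHalf S) (hκ : IsHalf κ) {σ : L ≃ₐ[ℚ] L}
    (h1 : σ ∈ S) (h2 : σ ∉ κ) : toggle σ S \ κ = (S \ κ) \ {σ} := by
  have h3 : cc L * σ ∈ κ := by
    by_contra h
    exact h2 ((hκ σ).2 h)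
  ext τ
  rw [Set.mem_sdiff, Set.mem_sdiff, Set.mem_sdiff, Set.mem_singleton_iff, mem_toggle]
  constructor
  · rintro ⟨⟨h4, h5, h6⟩ | ⟨h4, rfl | rfl⟩, h7⟩
    · exact ⟨⟨h4, h7⟩, h5⟩
    · exact absurd h1 h4
    · exact absurd h3 h7
  · rintro ⟨⟨h4, h5⟩, h6⟩
    refine ⟨Or.inl ⟨h4, h6, ?_⟩, h5⟩
    rintro rfl
    exact h5 h3

theorem eq_of_sdiff_empty {S κ : Set (L ≃ₐ[ℚ] L)} (hS : IsHalf S) (hκ : IsHalf κ)
    (h : S \ κ = ∅) : S = κ := by
  have h1 : S ⊆ κ := Set.sdiff_eq_empty.1 h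
  refine Set.Subset.antisymm h1 fun σ hσ => ?_
  by_contra h2
  have h3 : cc L * σ ∈ S := by
    by_contra h4
    exact h2 ((hS σ).2 h4)
  exact (hκ σ).1 hσ (h1 h3)

/-- The exchange relation. -/
def rel (κ S : Set (L ≃ₐ[ℚ] L)) (σ : L ≃ₐ[ℚ] L) : Multiset (Set (L ≃ₐ[ℚ] L)) :=
  {S, (toggle σ S)ᶜ, (toggle σ κ)ᶜ, κ}

/-- The places where `S` and `κ` differ. -/
def dif (κ S : Set (L ≃ₐ[ℚ] L)) : Finset (L ≃ₐ[ℚ] L) :=
  @Finset.filter _ (fun σ => σ ∈ S ∧ σ ∉ κ) (Classical.decPred _) Finset.univ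

theorem mem_dif (κ S : Set (L ≃ₐ[ℚ] L)) (σ : L ≃ₐ[ℚ] L) : σ ∈ dif κ S ↔ σ ∈ S ∧ σ ∉ κ := by
  unfold dif
  exact (@Finset.mem_filter _ _ (Classical.decPred _) _ _).trans (by simp)

theorem map_sum_compl {ι : Type} (F : Finset ι) (m : ι → Multiset (Set (L ≃ₐ[ℚ] L))) :
    Multiset.map compl (∑ i ∈ F, m i) = ∑ i ∈ F, Multiset.map compl (m i) := by
  classical
  induction F using Finset.induction_on with
  | empty => rfl
  | insert a F ha ih => rw [Finset.sum_insert ha, Finset.sum_insert ha, Multiset.map_add, ih]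

/-- The comparison of `S` with `κ`. -/
def comp (κ S : Set (L ≃ₐ[ℚ] L)) : Multiset (Set (L ≃ₐ[ℚ] L)) :=
  {S, κᶜ} + ∑ σ ∈ dif κ S, {(toggle σ κ)ᶜ, κ}

theorem half_rel {κ S : Set (L ≃ₐ[ℚ] L)} (hκ : IsHalf κ) (hS : IsHalf S) (σ : L ≃ₐ[ℚ] L) :
    ∀ R ∈ rel κ S σ, IsHalf R := by
  intro R hR
  unfold rel at hR
  simp only [Multiset.insert_eq_cons, Multiset.mem_cons, Multiset.mem_singleton] at hR
  rcases hR with rfl | rfl | rfl | rfl
  · exact hS
  · exact (hS.toggle σ).compl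
  · exact (hκ.toggle σ).compl
  · exact hκ

theorem half_comp {κ S : Set (L ≃ₐ[ℚ] L)} (hκ : IsHalf κ) (hS : IsHalf S) :
    ∀ R ∈ comp κ S, IsHalf R := by
  intro R hR
  unfold comp at hR
  rw [Multiset.mem_add, Multiset.mem_sum] at hR
  rcases hR with hR | ⟨σ, hσ, hR⟩
  · simp only [Multiset.insert_eq_cons, Multiset.mem_cons, Multiset.mem_singleton] at hR
    rcases hR with rfl | rfl
    · exact hS
    · exact hκ.compl
  · simp only [Multiset.insert_eq_cons, Multiset.mem_cons, Multiset.mem_singleton] at hR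
    rcases hR with rfl | rfl
    · exact (hκ.toggle σ).compl
    · exact hκ

theorem dif_eq_insert {κ S : Set (L ≃ₐ[ℚ] L)} (hκ : IsHalf κ) (hS : IsHalf S) {σ : L ≃ₐ[ℚ] L}
    (h1 : σ ∈ S) (h2 : σ ∉ κ) [DecidableEq (L ≃ₐ[ℚ] L)] :
    dif κ S = insert σ (dif κ (toggle σ S)) ∧ σ ∉ dif κ (toggle σ S) := by
  have h3 := toggle_sdiff hS hκ h1 h2
  have h4 : ∀ τ, (τ ∈ toggle σ S ∧ τ ∉ κ) ↔ ((τ ∈ S ∧ τ ∉ κ) ∧ τ ≠ σ) := by
    intro τ
    have h5 : τ ∈ toggle σ S \ κ ↔ τ ∈ (S \ κ) \ {σ} := by rw [h3]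
    simpa using h5
  constructor
  · ext τ
    rw [Finset.mem_insert, mem_dif, mem_dif, h4]
    constructor
    · intro h
      by_cases h5 : τ = σ
      · exact Or.inl h5
      · exact Or.inr ⟨h, h5⟩
    · rintro (rfl | h)
      · exact ⟨h1, h2⟩
      · exact h.1
  · rw [mem_dif, h4]
    rintro ⟨-, h⟩
    exact h rfl

/-- Adding the exchange relation to the comparison of the exchanged half system. -/
theorem rel_add_comp {κ S : Set (L ≃ₐ[ℚ] L)} (hκ : IsHalf κ) (hS : IsHalf S) {σ : L ≃ₐ[ℚ] L}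
    (h1 : σ ∈ S) (h2 : σ ∉ κ) :
    rel κ S σ + comp κ (toggle σ S) = comp κ S + {toggle σ S, (toggle σ S)ᶜ} := by
  classical
  obtain ⟨h3, h4⟩ := dif_eq_insert hκ hS h1 h2
  unfold comp
  rw [h3, Finset.sum_insert h4]
  unfold rel
  simp only [Multiset.insert_eq_cons, ← Multiset.singleton_add]
  abel

/-- The number of places in the complement where it differs from `κ`. -/
theorem ncard_compl {κ S : Set (L ≃ₐ[ℚ] L)} (hκ : IsHalf κ) (hS : IsHalf S) :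
    (Sᶜ \ κ).ncard = (S ∩ κ).ncard := by
  have h1 : Sᶜ \ κ = (fun σ => cc L * σ) '' (S ∩ κ) := by
    ext σ
    rw [Set.mem_sdiff, Set.mem_compl_iff, Set.mem_image]
    constructor
    · rintro ⟨h2, h3⟩
      refine ⟨cc L * σ, ⟨?_, ?_⟩, cc_mul_cc_mul σ⟩
      · by_contra h4
        exact h2 ((hS σ).2 h4)
      · by_contra h4
        exact h3 ((hκ σ).2 h4)
    · rintro ⟨τ, ⟨h2, h3⟩, rfl⟩
      exact ⟨(hS τ).1 h2, (hκ τ).1 h3⟩
  rw [h1]
  exact Set.ncard_image_of_injective _ (mul_right_injective (cc L))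

theorem ncard_toggle {κ S : Set (L ≃ₐ[ℚ] L)} (hκ : IsHalf κ) (hS : IsHalf S) {σ : L ≃ₐ[ℚ] L}
    (h1 : σ ∈ S) (h2 : σ ∉ κ) : (toggle σ S \ κ).ncard + 1 = (S \ κ).ncard := by
  rw [toggle_sdiff hS hκ h1 h2]
  exact Set.ncard_sdiff_singleton_add_one ⟨h1, h2⟩ (Set.toFinite _)

theorem ncard_toggle_inter {κ S : Set (L ≃ₐ[ℚ] L)} (hκ : IsHalf κ) (hS : IsHalf S)
    {σ : L ≃ₐ[ℚ] L} (h1 : σ ∈ S) (h2 : σ ∉ κ) : (toggle σ S ∩ κ).ncard = (S ∩ κ).ncard + 1 := by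
  rw [← ncard_compl hκ hS, ← ncard_compl hκ (hS.toggle σ)]
  have h3 : σ ∈ (toggle σ S)ᶜ := by
    rw [Set.mem_compl_iff, mem_toggle]
    tauto
  have h4 := ncard_toggle hκ (hS.toggle σ).compl h3 h2
  rw [toggle_compl, toggle_toggle] at h4
  exact h4.symm

theorem algM_comp_low (κ : Set (L ≃ₐ[ℚ] L)) (hκ : IsHalf κ)
    (h : ∀ S : Set (L ≃ₐ[ℚ] L), IsHalf S → 2 ≤ (S \ κ).ncard →
      (S \ κ).ncard ≤ (S ∩ κ).ncard + 1 → ∃ σ ∈ S \ κ, AlgM T j (rel κ S σ)) (n : ℕ) :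
    ∀ S : Set (L ≃ₐ[ℚ] L), IsHalf S → (S \ κ).ncard ≤ (S ∩ κ).ncard + 1 →
      (S \ κ).ncard = n → AlgM T j (comp κ S) := by
  classical
  induction n with
  | zero =>
    intro S hS _ hn
    have h1 : S \ κ = ∅ := (Set.ncard_eq_zero (Set.toFinite _)).1 hn
    have h2 := eq_of_sdiff_empty hS hκ h1
    subst h2
    have h3 : dif S S = ∅ := by
      ext σ
      rw [mem_dif]
      simp
    unfold comp
    rw [h3, Finset.sum_empty, add_zero]
    exact algM_pair S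
  | succ n ih =>
    intro S hS hle hn
    by_cases hn1 : n = 0
    · subst hn1
      obtain ⟨σ, hσ⟩ := Set.ncard_eq_one.1 hn
      have h0 : σ ∈ S \ κ := by
        rw [hσ]
        exact Set.mem_singleton σ
      have h1 := toggle_sdiff hS hκ h0.1 h0.2
      rw [hσ, Set.sdiff_self] at h1
      have h2 := eq_of_sdiff_empty (hS.toggle σ) hκ h1
      have h3 : toggle σ κ = S := by rw [← h2, toggle_toggle]
      have h4 : dif κ S = {σ} := by
        ext τ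
        rw [mem_dif, Finset.mem_singleton]
        have h5 : τ ∈ S \ κ ↔ τ ∈ ({σ} : Set (L ≃ₐ[ℚ] L)) := by rw [hσ]
        simpa using h5
      unfold comp
      rw [h4, Finset.sum_singleton, h3]
      have h5 : ({S, κᶜ} + {Sᶜ, κ} : Multiset (Set (L ≃ₐ[ℚ] L))) = {S, Sᶜ} + {κ, κᶜ} := by
        simp only [Multiset.insert_eq_cons, ← Multiset.singleton_add]
        abel
      rw [h5]
      exact algM_add (algM_pair S) (algM_pair κ)
    · obtain ⟨σ, hσ, h1⟩ := h S hS (by omega) hle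
      have h2 := ncard_toggle hκ hS hσ.1 hσ.2
      have h4 := ncard_toggle_inter hκ hS hσ.1 hσ.2
      have h3 := algM_add h1 (ih _ (hS.toggle σ) (by omega) (by omega))
      rw [rel_add_comp hκ hS hσ.1 hσ.2] at h3
      exact algM_cancel (half_comp hκ hS) (hS.toggle σ) h3

/-- Half systems at any distance. -/
theorem exists_dist (κ : Set (L ≃ₐ[ℚ] L)) (hκ : IsHalf κ) (n : ℕ) (hn : n ≤ κ.ncard) :
    ∃ S : Set (L ≃ₐ[ℚ] L), IsHalf S ∧ (S \ κ).ncard = n ∧ (S ∩ κ).ncard + n = κ.ncard := by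
  induction n with
  | zero => exact ⟨κ, hκ, by simp, by simp⟩
  | succ n ih =>
    obtain ⟨S, hS, h1, h2⟩ := ih (by omega)
    have h3 : 0 < (Sᶜ \ κ).ncard := by
      rw [ncard_compl hκ hS]
      omega
    rw [Set.ncard_pos (Set.toFinite _)] at h3
    obtain ⟨σ, hσ, hσ'⟩ := h3
    have h4 : σ ∈ toggle σ S := by
      rw [mem_toggle]
      exact Or.inr ⟨hσ, Or.inl rfl⟩
    have h5 := ncard_toggle hκ (hS.toggle σ) h4 hσ'
    have h6 := ncard_toggle_inter hκ (hS.toggle σ) h4 hσ'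
    rw [toggle_toggle] at h5 h6
    exact ⟨toggle σ S, hS.toggle σ, by omega, by omega⟩

theorem dif_compl_add {κ S : Set (L ≃ₐ[ℚ] L)} (m : (L ≃ₐ[ℚ] L) → Multiset (Set (L ≃ₐ[ℚ] L))) :
    ∑ σ ∈ dif κ S, m σ + ∑ σ ∈ dif κ Sᶜ, m σ = ∑ σ ∈ dif κ κᶜ, m σ := by
  classical
  have h1 : dif κ κᶜ = dif κ S ∪ dif κ Sᶜ := by
    ext σ
    rw [Finset.mem_union, mem_dif, mem_dif, mem_dif, Set.mem_compl_iff, Set.mem_compl_iff]
    tauto
  have h2 : Disjoint (dif κ S) (dif κ Sᶜ) := by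
    rw [Finset.disjoint_left]
    intro σ h3 h4
    rw [mem_dif] at h3 h4
    exact h4.1 h3.1
  rw [h1, Finset.sum_union h2]

/-- The comparison with the complement of `κ`. -/
theorem algM_comp_top {κ S : Set (L ≃ₐ[ℚ] L)} (hκ : IsHalf κ) (hS : IsHalf S)
    (h1 : AlgM T j (comp κ S)) (h2 : AlgM T j (comp κ Sᶜ)) : AlgM T j (comp κ κᶜ) := by
  have h3 := algM_add h1 h2
  have h4 : comp κ S + comp κ Sᶜ = comp κ κᶜ + {S, Sᶜ} := by
    unfold comp
    rw [← dif_compl_add (S := S) (fun σ => {(toggle σ κ)ᶜ, κ})]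
    simp only [Multiset.insert_eq_cons, ← Multiset.singleton_add]
    abel
  rw [h4] at h3
  exact algM_cancel (half_comp hκ hκ.compl) hS h3

theorem algM_comp_high {κ S : Set (L ≃ₐ[ℚ] L)} (hκ : IsHalf κ) (hS : IsHalf S)
    (h1 : AlgM T j (comp κ Sᶜ)) (h2 : AlgM T j (comp κ κᶜ)) : AlgM T j (comp κ S) := by
  classical
  have h3 := algM_add (algM_compl (half_comp hκ hS.compl) h1) h2
  have h5 : (comp κ Sᶜ).map compl + comp κ κᶜ =
      ((comp κ S + {κ, κᶜ}) + ∑ τ ∈ dif κ Sᶜ, {κ, κᶜ}) +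
        ∑ τ ∈ dif κ Sᶜ, {toggle τ κ, (toggle τ κ)ᶜ} := by
    have h6 : ∀ τ : L ≃ₐ[ℚ] L, Multiset.map compl
        ({(toggle τ κ)ᶜ, κ} : Multiset (Set (L ≃ₐ[ℚ] L))) = {toggle τ κ} + {κᶜ} := by
      intro τ
      simp [Multiset.insert_eq_cons]
    have h7 : Multiset.map compl ({Sᶜ, κᶜ} : Multiset (Set (L ≃ₐ[ℚ] L))) = {S} + {κ} := by
      simp [Multiset.insert_eq_cons]
    unfold comp
    rw [Multiset.map_add, map_sum_compl, h7, Finset.sum_congr rfl (fun τ _ => h6 τ),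
      ← dif_compl_add (S := S) (fun σ => {(toggle σ κ)ᶜ, κ})]
    simp only [Multiset.insert_eq_cons, ← Multiset.singleton_add, Finset.sum_add_distrib]
    abel
  rw [h5] at h3
  have hcomp := half_comp hκ hS
  have hE : ∀ R ∈ comp κ S + {κ, κᶜ}, IsHalf R := by
    intro R hR
    rw [Multiset.mem_add] at hR
    rcases hR with hR | hR
    · exact hcomp R hR
    · simp only [Multiset.insert_eq_cons, Multiset.mem_cons, Multiset.mem_singleton] at hR
      rcases hR with rfl | rfl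
      · exact hκ
      · exact hκ.compl
  have hF : ∀ R ∈ (comp κ S + {κ, κᶜ}) + ∑ τ ∈ dif κ Sᶜ, {κ, κᶜ}, IsHalf R := by
    intro R hR
    rw [Multiset.mem_add, Multiset.mem_sum] at hR
    rcases hR with hR | ⟨τ, hτ, hR⟩
    · exact hE R hR
    · simp only [Multiset.insert_eq_cons, Multiset.mem_cons, Multiset.mem_singleton] at hR
      rcases hR with rfl | rfl
      · exact hκ
      · exact hκ.compl
  have h9 := algM_cancel_sum hF _ (fun τ => toggle τ κ) (fun τ _ => hκ.toggle τ) h3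
  have h10 := algM_cancel_sum hE _ (fun _ => κ) (fun τ _ => hκ) h9
  exact algM_cancel hcomp hκ h10

/-- All comparisons. -/
theorem algM_comp (κ : Set (L ≃ₐ[ℚ] L)) (hκ : IsHalf κ)
    (h : ∀ S : Set (L ≃ₐ[ℚ] L), IsHalf S → 2 ≤ (S \ κ).ncard →
      (S \ κ).ncard ≤ (S ∩ κ).ncard + 1 → ∃ σ ∈ S \ κ, AlgM T j (rel κ S σ))
    (S : Set (L ≃ₐ[ℚ] L)) (hS : IsHalf S) : AlgM T j (comp κ S) := by
  have htop : AlgM T j (comp κ κᶜ) := by
    obtain ⟨S1, hS1, h1, h2⟩ := exists_dist κ hκ (κ.ncard / 2) (by omega)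
    have h3 := ncard_compl hκ hS1
    have h4 := ncard_compl hκ hS1.compl
    rw [compl_compl] at h4
    exact algM_comp_top hκ hS1 (algM_comp_low κ hκ h _ S1 hS1 (by omega) rfl)
      (algM_comp_low κ hκ h _ S1ᶜ hS1.compl (by omega) rfl)
  by_cases hle : (S \ κ).ncard ≤ (S ∩ κ).ncard + 1
  · exact algM_comp_low κ hκ h _ S hS hle rfl
  · have h3 := ncard_compl hκ hS
    have h4 := ncard_compl hκ hS.compl
    rw [compl_compl] at h4
    exact algM_comp_high hκ hS (algM_comp_low κ hκ h _ Sᶜ hS.compl (by omega) rfl) htop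

/-- All exchange relations. -/
theorem algM_rel (κ : Set (L ≃ₐ[ℚ] L)) (hκ : IsHalf κ)
    (h : ∀ S : Set (L ≃ₐ[ℚ] L), IsHalf S → 2 ≤ (S \ κ).ncard →
      (S \ κ).ncard ≤ (S ∩ κ).ncard + 1 → ∃ σ ∈ S \ κ, AlgM T j (rel κ S σ))
    (S : Set (L ≃ₐ[ℚ] L)) (hS : IsHalf S)
    (σ : L ≃ₐ[ℚ] L) (h1 : σ ∈ S) (h2 : σ ∉ κ) : AlgM T j (rel κ S σ) := by
  classical
  have hA := algM_comp κ hκ h S hS
  have hB := algM_comp κ hκ h (toggle σ S) (hS.toggle σ)
  have hC := algM_compl (half_comp hκ (hS.toggle σ)) hB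
  have hD := algM_add hA hC
  obtain ⟨h3, h4⟩ := dif_eq_insert hκ hS h1 h2
  have h5 : comp κ S + (comp κ (toggle σ S)).map compl =
      ((rel κ S σ + {κ, κᶜ}) + ∑ τ ∈ dif κ (toggle σ S), {κ, κᶜ}) +
        ∑ τ ∈ dif κ (toggle σ S), {toggle τ κ, (toggle τ κ)ᶜ} := by
    have h6 : ∀ τ : L ≃ₐ[ℚ] L, Multiset.map compl
        ({(toggle τ κ)ᶜ, κ} : Multiset (Set (L ≃ₐ[ℚ] L))) = {toggle τ κ} + {κᶜ} := by
      intro τ
      simp [Multiset.insert_eq_cons]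
    have h7 : Multiset.map compl ({toggle σ S, κᶜ} : Multiset (Set (L ≃ₐ[ℚ] L))) =
        {(toggle σ S)ᶜ} + {κ} := by
      simp [Multiset.insert_eq_cons]
    unfold comp
    rw [h3, Finset.sum_insert h4, Multiset.map_add, map_sum_compl, h7,
      Finset.sum_congr rfl (fun τ _ => h6 τ)]
    unfold rel
    simp only [Multiset.insert_eq_cons, ← Multiset.singleton_add, Finset.sum_add_distrib]
    abel
  rw [h5] at hD
  have hrel := half_rel hκ hS σ
  have hE : ∀ R ∈ rel κ S σ + {κ, κᶜ}, IsHalf R := by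
    intro R hR
    rw [Multiset.mem_add] at hR
    rcases hR with hR | hR
    · exact hrel R hR
    · simp only [Multiset.insert_eq_cons, Multiset.mem_cons, Multiset.mem_singleton] at hR
      rcases hR with rfl | rfl
      · exact hκ
      · exact hκ.compl
  have hF : ∀ R ∈ (rel κ S σ + {κ, κᶜ}) + ∑ τ ∈ dif κ (toggle σ S), {κ, κᶜ}, IsHalf R := by
    intro R hR
    rw [Multiset.mem_add, Multiset.mem_sum] at hR
    rcases hR with hR | ⟨τ, hτ, hR⟩
    · exact hE R hR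
    · simp only [Multiset.insert_eq_cons, Multiset.mem_cons, Multiset.mem_singleton] at hR
      rcases hR with rfl | rfl
      · exact hκ
      · exact hκ.compl
  have h9 := algM_cancel_sum hF _ (fun τ => toggle τ κ) (fun τ _ => hκ.toggle τ) hD
  have h10 := algM_cancel_sum hE _ (fun _ => κ) (fun τ _ => hκ) h9
  exact algM_cancel hrel hκ h10

end

end Pool.Agent.W547.OC
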