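import Pool.Agent.W547.KB.Defs

/-!
# Systems of classes with the closure properties of algebraic classes, and the special classes
-/

set_option autoImplicit false

namespace Pool.Agent.W547.OC

open NumberField Pool.Agent.H204R3.CM Pool.Agent.W547.KB

/-- A system of rational cohomology classes `f ∈ H^κ(X, ℚ)` on all abelian varieties `X` of CM type
(alternating forms on `H_1(X, ℚ)` in variables indexed by the finite set `κ`) with the following
properties of the algebraic classes: it contains the classes of degree zero and the Hodge classes of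
degree two (the classes of divisors, by the theorem of Lefschetz), and it is stable under linear
combinations, cup products, pull-backs along homomorphisms, and push-forwards along projections
`X × Y → X`. -/
structure CycleTheory where
  /-- the classes of the system -/
  alg : (X : CMAV) → (κ : Type) → (X.H1 [⋀^κ]→ₗ[ℚ] ℚ) → Prop
  /-- classes of degree zero -/
  unit : ∀ {X : CMAV} {κ : Type} [IsEmpty κ] (f : X.H1 [⋀^κ]→ₗ[ℚ] ℚ), alg X κ f
  /-- Hodge classes of degree two -/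
  divisor : ∀ {X : CMAV} {κ : Type} (_ : Nat.card κ = 2) (f : X.H1 [⋀^κ]→ₗ[ℚ] ℚ)
    (_ : IsHodge X.per f), alg X κ f
  zero : ∀ (X : CMAV) (κ : Type), alg X κ 0
  add : ∀ {X : CMAV} {κ : Type} (f g : X.H1 [⋀^κ]→ₗ[ℚ] ℚ) (_ : alg X κ f) (_ : alg X κ g),
    alg X κ (f + g)
  smul : ∀ {X : CMAV} {κ : Type} (a : ℚ) (f : X.H1 [⋀^κ]→ₗ[ℚ] ℚ) (_ : alg X κ f), alg X κ (a • f)
  /-- renaming of the variables -/
  reindex : ∀ {X : CMAV} {κ κ' : Type} (e : κ ≃ κ') (f : X.H1 [⋀^κ]→ₗ[ℚ] ℚ) (_ : alg X κ f),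
    alg X κ' (f.domDomCongr e)
  /-- cup products (up to a factor) -/
  cup : ∀ {X : CMAV} {κ κ' : Type} [Fintype κ] [DecidableEq κ] [Fintype κ'] [DecidableEq κ']
    (f : X.H1 [⋀^κ]→ₗ[ℚ] ℚ) (g : X.H1 [⋀^κ']→ₗ[ℚ] ℚ) (_ : alg X κ f) (_ : alg X κ' g)
    (h : X.H1 [⋀^κ ⊕ κ']→ₗ[ℚ] ℚ)
    (_ : ∀ v : κ ⊕ κ' → X.H1, h v = ∑ σ : Equiv.Perm (κ ⊕ κ'), ((Equiv.Perm.sign σ : ℤ) : ℚ) *
      (f (fun k => v (σ (Sum.inl k))) * g (fun k => v (σ (Sum.inr k))))), alg X (κ ⊕ κ') h
  /-- pull-back along a homomorphism -/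
  pull : ∀ {X Y : CMAV} {κ : Type} (h : X.H1 →ₗ[ℚ] Y.H1) (_ : IsHom X Y h)
    (f : Y.H1 [⋀^κ]→ₗ[ℚ] ℚ) (_ : alg Y κ f), alg X κ (f.compLinearMap h)
  /-- push-forward (integration over the fibres) along the projection `X × Y → X`: insert a basis
  of `H_1(Y, ℚ)` -/
  push : ∀ {X Y : CMAV} {κ κ' : Type} (b : Module.Basis κ' ℚ Y.H1)
    (f : (X.prod Y).H1 [⋀^κ ⊕ κ']→ₗ[ℚ] ℚ) (_ : alg (X.prod Y) (κ ⊕ κ') f)
    (g : X.H1 [⋀^κ]→ₗ[ℚ] ℚ)
    (_ : ∀ v : κ → X.H1,
      g v = f (Sum.elim (fun k => X.pair Y (v k) 0) (fun k => X.pair Y 0 (b k)))), alg X κ g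

/-- The CM fields of all factors of `X` can be embedded into `L`. -/
def SplitBy (L : Type) [Field L] (X : CMAV) : Prop :=
  ∀ i, Nonempty ((X.factor i).E →+* L)

/-- The CM type of `L` induced from the CM type `B` by the embedding `ι` of its field. -/
def inducedType (B : CMPair) {L : Type} [Field L] (ι : B.E →+* L) : Set (L →+* ℂ) :=
  {φ | φ.comp ι ∈ B.Φ}

/-- The special class of the CM type `Φ` of the Galois CM field `L` and of the embedding `ρ ∈ Φ`,
which does not belong to the CM type of `L` induced from `B`, belongs to the system `T`. This is the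
class `Tr_{L/ℚ} (x₀ ∧ x₁ ∧ x₂ ∧ t)` of degree four on the product of the abelian varieties of CM
types `(L, Ψ 0)`, `(L, Ψ 1)`, `(L, Ψ 2)` and `B`, where `Ψ 0 = Φ`, `Ψ 1` is the CM type with
`Φ ∩ Ψ 1 = {ρ}`, and `Ψ 2` is the CM type which meets the type induced from `B` exactly in the
conjugate of `ρ`. (The types `Ψ 1` and `Ψ 2` and the class are determined by these
conditions.) -/
def SpecialAlg (T : CycleTheory) (B : CMPair) (L : Type) [Field L] [NumberField L] [IsCMField L]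
    (ι : B.E →+* L) (Φ : Set (L →+* ℂ)) (ρ : L →+* ℂ) : Prop :=
  ∃ (Ψ : Fin 3 → Set (L →+* ℂ)) (hΨ : ∀ i, IsCMType (Ψ i))
    (f : (threeB B L Ψ hΨ).H1 [⋀^Fin 4]→ₗ[ℚ] ℚ),
      Ψ 0 = Φ ∧ Ψ 0 ∩ Ψ 1 = {ρ} ∧ Ψ 2 ∩ inducedType B ι = {ComplexEmbedding.conjugate ρ} ∧
        IsWeilForm B L ι Ψ hΨ 1 f ∧ T.alg (threeB B L Ψ hΨ) (Fin 4) f

/-- For every CM type `Φ` of `L` which differs from the CM type induced from `B` in at least two
places, and in at most one place more than it agrees with it, one of the special classes belongs to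
the system `T`. -/
def OneForEachType (T : CycleTheory) (B : CMPair) (L : Type) [Field L] [NumberField L]
    [IsCMField L] (ι : B.E →+* L) : Prop :=
  ∀ Φ : Set (L →+* ℂ), IsCMType Φ → 2 ≤ (Φ \ inducedType B ι).ncard →
    (Φ \ inducedType B ι).ncard ≤ (Φ ∩ inducedType B ι).ncard + 1 →
      ∃ ρ ∈ Φ \ inducedType B ι, SpecialAlg T B L ι Φ ρ

end Pool.Agent.W547.OC
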