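import Pool.Agent.W547.OC.Span
import Pool.Agent.W547.KB.Cancel

/-!
# Families of half systems in a cycle theory
-/

set_option linter.unusedSectionVars false
set_option linter.unusedVariables false

namespace Pool.Agent.W547.OC

open NumberField Pool.Agent.H204R3.CM Pool.Agent.W547.KB Equiv Module

noncomputable section

variable {T : CycleTheory} {L : Type} [Field L] [NumberField L] {X Y : CMAV}
  {κ κ' : Type} [Fintype κ] [DecidableEq κ] [Fintype κ'] [DecidableEq κ']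

theorem mono_mem_of_trForm (I : κ → Wt X L) (h : ∀ α : L, T.alg X κ (trForm α I)) :
    mono I ∈ LSp T L X κ := by
  obtain ⟨n, a, b, hab⟩ := exists_dual L
  have h1 : mono I = ∑ i, b i • (fun v : κ → X.H1 => ((trForm (a i) I v : ℚ) : L)) := by
    funext v
    rw [Finset.sum_apply]
    exact hab (mono I v)
  rw [h1]
  exact Submodule.sum_mem _ fun i _ => Submodule.smul_mem _ _ (LSp.of_gen (h (a i)))

variable [IsCMField L] [IsGalois ℚ L]

/-- All monomials with the given types are in the span of the classes of the system. -/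
def Alg (T : CycleTheory) (j : L →+* ℂ) (s : κ → Set (L ≃ₐ[ℚ] L)) : Prop :=
  ∀ (X : CMAV) (I : κ → Wt X L), (∀ k, St j (I k) = s k) → mono I ∈ LSp T L X κ

theorem alg_of_can (j : L →+* ℂ) (s : κ → Set (L ≃ₐ[ℚ] L)) (hs : ∀ k, IsHalf (s k))
    (h : mono (canI j s hs) ∈ LSp T L (can j s hs) κ) : Alg T j s := by
  intro X I hI
  let hh : X.H1 →ₗ[ℚ] (can j s hs).H1 := LinearMap.pi (fun k => evLin (I k))
  have hmem : ∀ (k : κ) (ψ : L →+* ℂ), ψ ∈ typeOf j (s k) →
      ψ.comp (I k).2 ∈ (X.factor (I k).1).Φ := by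
    rintro k ψ ⟨σ, hσ, rfl⟩
    rw [← hI k] at hσ
    exact hσ
  let H : X.Tan →ₗ[ℂ] (can j s hs).Tan :=
    LinearMap.pi fun k => LinearMap.pi fun ψ =>
      (LinearMap.proj (⟨ψ.1.comp (I k).2, hmem k ψ.1 ψ.2⟩ : (X.factor (I k).1).Φ)).comp
        (LinearMap.proj (R := ℂ) (φ := fun i => (X.factor i).Φ → ℂ) (I k).1)
  have hom : IsHom X (can j s hs) hh := ⟨H, fun w => rfl⟩
  have h1 := LSp.pull hom h
  rwa [mono_pull hh I (canI j s hs) (fun w k => rfl)] at h1

theorem alg_reindex {j : L →+* ℂ} (e : κ ≃ κ') {s : κ → Set (L ≃ₐ[ℚ] L)}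
    {s' : κ' → Set (L ≃ₐ[ℚ] L)} (hs : Alg T j s) (h : ∀ k, s' (e k) = s k) : Alg T j s' := by
  intro X I hI
  have h1 := hs X (fun k => I (e k)) (fun k => by rw [hI, h])
  have h2 := LSp.reindex e h1
  rw [mono_reindex] at h2
  simpa using h2

theorem alg_sum {j : L →+* ℂ} {s : κ → Set (L ≃ₐ[ℚ] L)} {s' : κ' → Set (L ≃ₐ[ℚ] L)}
    (hs : Alg T j s) (hs' : Alg T j s') : Alg T j (Sum.elim s s') := by
  intro X I hI
  have h1 := hs X (fun k => I (Sum.inl k)) (fun k => hI (Sum.inl k))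
  have h2 := hs' X (fun k => I (Sum.inr k)) (fun k => hI (Sum.inr k))
  have h3 := LSp.cup h1 h2
  rw [mono_cup] at h3
  have h4 : (Fintype.card (Perm κ) : L) * (Fintype.card (Perm κ') : L) ≠ 0 := by
    rw [← Nat.cast_mul]
    exact Nat.cast_ne_zero.2 (Nat.mul_ne_zero Fintype.card_ne_zero Fintype.card_ne_zero)
  have h5 := Submodule.smul_mem _ (((Fintype.card (Perm κ) : L) * (Fintype.card (Perm κ') : L))⁻¹) h3
  rw [smul_smul, inv_mul_cancel₀ h4, one_smul] at h5
  have h6 : Sum.elim (fun k => I (Sum.inl k)) (fun k => I (Sum.inr k)) = I := by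
    funext s
    cases s <;> rfl
  rwa [h6] at h5

theorem alg_empty [IsEmpty κ] (j : L →+* ℂ) (s : κ → Set (L ≃ₐ[ℚ] L)) : Alg T j s :=
  fun X I hI => LSp.unit _

theorem alg_two (j : L →+* ℂ) (hκ : Nat.card κ = 2) {s : κ → Set (L ≃ₐ[ℚ] L)}
    (hs : Balanced s) : Alg T j s := by
  intro X I hI
  have h1 : (fun k => St j (I k)) = s := funext hI
  refine mono_mem_of_trForm I fun α => T.divisor hκ _ ?_
  exact isHodge_trForm j I (by rw [h1]; exact hs) α

theorem alg_pair (j : L →+* ℂ) (S : Set (L ≃ₐ[ℚ] L)) : Alg T j ![S, Sᶜ] := by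
  refine alg_two j (by simp) fun σ => ?_
  by_cases h : σ ∈ S <;> simp [Fin.sum_univ_two, h]

theorem alg_split {j : L →+* ℂ} {s : κ → Set (L ≃ₐ[ℚ] L)} (a b : κ) (hab : a ≠ b)
    (hs : s b = (s a)ᶜ) (h : Alg T j (fun x : {x : κ // x ≠ a ∧ x ≠ b} => s x.1)) : Alg T j s := by
  refine alg_reindex (splitTwo a b hab) (alg_sum h (alg_pair j (s a))) ?_
  rintro (x | x)
  · rfl
  · fin_cases x
    · rfl
    · exact hs

/-- Unions of pairs. -/
theorem alg_pairs (j : L →+* ℂ) (n : ℕ) : ∀ (κ : Type) [Fintype κ] [DecidableEq κ],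
    Fintype.card κ = n → ∀ (s : κ → Set (L ≃ₐ[ℚ] L)) (inv : κ → κ), (∀ k, inv (inv k) = k) →
    (∀ k, inv k ≠ k) → (∀ k, s (inv k) = (s k)ᶜ) → Alg T j s := by
  induction n using Nat.strong_induction_on with
  | _ n ih =>
    intro κ _ _ hn s inv hinv hne hs
    rcases isEmpty_or_nonempty κ with h | ⟨⟨a⟩⟩
    · exact alg_empty j s
    · have hab : a ≠ inv a := (hne a).symm
      have hcard := card_split a (inv a) hab
      refine alg_split a (inv a) hab (hs a) ?_
      refine ih _ (by omega) {x : κ // x ≠ a ∧ x ≠ inv a} rfl _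
        (fun x => ⟨inv x.1, fun h => x.2.2 (by rw [← hinv x.1, h]),
          fun h => x.2.1 (by rw [← hinv x.1, h, hinv])⟩) ?_ ?_ ?_
      · intro x
        exact Subtype.ext (hinv x.1)
      · intro x h
        exact hne x.1 (congrArg Subtype.val h)
      · intro x
        exact hs x.1

theorem alg_cancel (j : L →+* ℂ) {s : κ → Set (L ≃ₐ[ℚ] L)} (hs : ∀ k, IsHalf (s k))
    {S : Set (L ≃ₐ[ℚ] L)} (hS : IsHalf S) (h : Alg T j (Sum.elim s ![S, Sᶜ])) : Alg T j s := by
  classical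
  let q : (L ≃ₐ[ℚ] L) → Set (L ≃ₐ[ℚ] L) := fun σ => {τ | τ * σ ∈ S}
  have hq : ∀ σ, q (cc L * σ) = (q σ)ᶜ := by
    intro σ
    ext τ
    have h1 : τ * (cc L * σ) = cc L * (τ * σ) := by
      rw [← mul_assoc, ← mul_assoc, cc_comm j]
    change τ * (cc L * σ) ∈ S ↔ ¬ (τ * σ ∈ S)
    rw [h1, hS (τ * σ), not_not]
  have hq1 : q 1 = S := by
    ext τ
    change τ * 1 ∈ S ↔ _
    rw [mul_one]
  have hqc : q (cc L) = Sᶜ := by
    rw [← hq1, ← hq 1, mul_one]
  have hne : (1 : L ≃ₐ[ℚ] L) ≠ cc L := fun h => cc_ne h.symm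
  -- the other weights of the factor
  have h1 : Alg T j (fun σ : {σ : L ≃ₐ[ℚ] L // σ ≠ 1 ∧ σ ≠ cc L} => q σ.1) := by
    refine alg_pairs j _ _ rfl _ (fun σ => ⟨cc L * σ.1, fun h => σ.2.2 ?_, fun h => σ.2.1 ?_⟩)
      ?_ ?_ ?_
    · exact mul_left_cancel (a := cc L) (h.trans cc_cc.symm)
    · exact mul_left_cancel (a := cc L) (by rw [h, mul_one])
    · intro σ
      refine Subtype.ext ?_
      change cc L * (cc L * σ.1) = σ.1
      rw [← mul_assoc, cc_cc, one_mul]
    · intro σ h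
      have h2 : cc L * σ.1 = σ.1 := congrArg Subtype.val h
      exact cc_ne (mul_right_cancel (b := σ.1) (by rw [h2, one_mul]))
    · intro σ
      exact hq σ.1
  have h2 : Alg T j (Sum.elim s q) := by
    refine alg_reindex (((Equiv.sumAssoc κ (Fin 2) _).trans (Equiv.sumCongr (Equiv.refl κ)
      ((Equiv.sumComm _ _).trans (splitTwo 1 (cc L) hne))))) (alg_sum h h1) ?_
    rintro ((k | k) | x)
    · rfl
    · fin_cases k
      · exact hq1
      · exact hqc
    · rfl
  -- the variety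
  refine alg_of_can j s hs ?_
  let X : CMAV := can j s hs
  let Y : CMAV := ⟨Unit, fun _ => ⟨L, typeOf j S, isCMType_typeOf j hS⟩⟩
  let I : κ ⊕ (L ≃ₐ[ℚ] L) → Wt (X.prod Y) L :=
    Sum.elim (fun k => ⟨Sum.inl k, RingHom.id L⟩) (fun σ => ⟨Sum.inr (), (σ : L →+* L)⟩)
  have hI : ∀ k, St j (I k) = Sum.elim s q k := by
    rintro (k | σ)
    · ext τ
      exact mem_typeOf j (s k) τ
    · ext τ
      exact mem_q j S τ σ
  have h3 := h2 (X.prod Y) I hI
  have hcard : Fintype.card (Fin (finrank ℚ L)) = Fintype.card (L ≃ₐ[ℚ] L) := by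
    rw [Fintype.card_fin, ← Nat.card_eq_fintype_card, IsGalois.card_aut_eq_finrank]
  let b0 : Basis (L ≃ₐ[ℚ] L) ℚ L := (Module.finBasis ℚ L).reindex (Fintype.equivOfCardEq hcard)
  let eY : L ≃ₗ[ℚ] Y.H1 := (LinearEquiv.funUnique Unit ℚ L).symm
  have h4 := LSp.push (b0.map eY) h3
  let D : L := Matrix.det (Matrix.of fun τ σ : L ≃ₐ[ℚ] L => σ (b0 τ))
  have hD : D ≠ 0 := det_conj_ne b0
  have h5 : (fun v : κ → X.H1 => mono I (Sum.elim (fun k => X.pair Y (v k) 0)
      (fun k => X.pair Y 0 ((b0.map eY) k)))) = D • mono (canI j s hs) := by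
    funext v
    rw [Pi.smul_apply, smul_eq_mul, mono_eq_det, mono_eq_det]
    have h6 : (Matrix.of fun k l => ev ((Sum.elim (fun k => X.pair Y (v k) 0)
      (fun k => X.pair Y 0 ((b0.map eY) k)) : κ ⊕ (L ≃ₐ[ℚ] L) → (X.prod Y).H1) k) (I l)) =
        Matrix.fromBlocks (Matrix.of fun k l => ev (v k) (canI j s hs l)) 0 0
          (Matrix.of fun τ σ : L ≃ₐ[ℚ] L => σ (b0 τ)) := by
      ext k l
      rcases k with k | τ <;> rcases l with l | σ
      · rfl
      · exact map_zero (σ : L →+* L)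
      · exact map_zero (RingHom.id L)
      · rfl
    rw [h6, Matrix.det_fromBlocks_zero₂₁, mul_comm]
  rw [h5] at h4
  have h7 := Submodule.smul_mem _ D⁻¹ h4
  rwa [smul_smul, inv_mul_cancel₀ hD, one_smul] at h7

/-- Galois conjugate families. -/
theorem alg_trans (j : L →+* ℂ) {s : κ → Set (L ≃ₐ[ℚ] L)} (τ : L ≃ₐ[ℚ] L) (h : Alg T j s) :
    Alg T j (fun k => {σ | σ * τ ∈ s k}) := by
  classical
  intro X I hI
  -- the monomial with the weights `τ⁻¹ I`
  let I' : κ → Wt X L := fun k => ⟨(I k).1, (τ⁻¹ : L ≃ₐ[ℚ] L) • (I k).2⟩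
  have hI' : ∀ k, St j (I' k) = s k := by
    intro k
    ext σ
    have h1 : σ * τ⁻¹ ∈ St j (I k) ↔ σ * τ⁻¹ * τ ∈ s k := by
      rw [hI k]
      exact Iff.rfl
    rw [inv_mul_cancel_right] at h1
    rw [← h1]
    exact Iff.rfl
  have h1 := h X I' hI'
  -- apply `τ` to the values
  have key : ∀ F ∈ LSp T L X κ, (fun v => τ (F v)) ∈ LSp T L X κ := by
    intro F hF
    induction hF using Submodule.span_induction with
    | mem F hF =>
      obtain ⟨f, hf, rfl⟩ := hF
      have h2 : (fun v => τ (((f v : ℚ) : L))) = fun v => ((f v : ℚ) : L) := by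
        funext v
        exact map_ratCast τ (f v)
      rw [h2]
      exact LSp.of_gen hf
    | zero =>
      have h2 : (fun v : κ → X.H1 => τ ((0 : (κ → X.H1) → L) v)) = 0 := by
        funext v
        exact map_zero τ
      rw [h2]
      exact Submodule.zero_mem _
    | add F G _ _ hF hG =>
      have h2 : (fun v : κ → X.H1 => τ ((F + G) v)) = (fun v => τ (F v)) + fun v => τ (G v) := by
        funext v
        exact map_add τ _ _
      rw [h2]
      exact Submodule.add_mem _ hF hG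
    | smul c F _ hF =>
      have h2 : (fun v : κ → X.H1 => τ ((c • F) v)) = (τ c) • fun v => τ (F v) := by
        funext v
        exact map_mul τ _ _
      rw [h2]
      exact Submodule.smul_mem _ _ hF
  have h2 := key _ h1
  have h3 : (fun v => τ (mono I' v)) = mono I := by
    funext v
    rw [mono_apply, mono_apply, map_sum]
    refine Finset.sum_congr rfl fun π _ => ?_
    rw [map_mul, map_intCast, map_prod]
    congr 1
    refine Finset.prod_congr rfl fun k _ => ?_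
    change τ ((τ⁻¹ : L ≃ₐ[ℚ] L) ((I k).2 (v (π k) (I k).1))) = (I k).2 (v (π k) (I k).1)
    exact AlgEquiv.apply_symm_apply τ _
  rw [h3] at h2
  exact h2

/-- The complementary family. -/
theorem alg_compl (j : L →+* ℂ) {s : κ → Set (L ≃ₐ[ℚ] L)} (hs : ∀ k, IsHalf (s k))
    (h : Alg T j s) : Alg T j (fun k => (s k)ᶜ) := by
  have h1 := alg_trans j (cc L) h
  have h2 : (fun k => {σ : L ≃ₐ[ℚ] L | σ * cc L ∈ s k}) = fun k => (s k)ᶜ := by
    funext k
    ext σ
    change σ * cc L ∈ s k ↔ ¬ σ ∈ s k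
    rw [← cc_comm j, hs k σ, not_not]
  rwa [h2] at h1

end

end Pool.Agent.W547.OC
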