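import Pool.Agent.W547.OC.Chain
import Pool.Agent.W547.KB.Closure
import Pool.Agent.H204R3.CM.Coef

/-!
# All Hodge classes from the exchange relations
-/

set_option linter.unusedSectionVars false
set_option linter.unusedVariables false

namespace Pool.Agent.W547.OC

open NumberField Pool.Agent.H204R3.CM Pool.Agent.W547.KB Equiv Module

noncomputable section

variable {T : CycleTheory} {L : Type} [Field L] [NumberField L] [IsCMField L] [IsGalois ℚ L]
  {j : L →+* ℂ}

theorem inter_toggle {S : Set (L ≃ₐ[ℚ] L)} (hS : IsHalf S) {σ : L ≃ₐ[ℚ] L} (h : σ ∈ S) :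
    S ∩ (toggle σ S)ᶜ = {σ} := by
  have h2 : cc L * σ ∉ S := (hS σ).1 h
  ext τ
  rw [Set.mem_inter_iff, Set.mem_compl_iff, mem_toggle, Set.mem_singleton_iff]
  constructor
  · rintro ⟨h1, h3⟩
    by_contra h4
    exact h3 (Or.inl ⟨h1, h4, fun h5 => h2 (h5 ▸ h1)⟩)
  · rintro rfl
    exact ⟨h, by tauto⟩

theorem alg_weil_aux {κ : Set (L ≃ₐ[ℚ] L)} (hκ : IsHalf κ)
    (hR : ∀ S : Set (L ≃ₐ[ℚ] L), IsHalf S → ∀ σ ∈ S, σ ∉ κ → AlgM T j (rel κ S σ))
    (r : Fin 4 → Set (L ≃ₐ[ℚ] L)) (hr : ∀ k, IsHalf (r k)) (σ : L ≃ₐ[ℚ] L)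
    (h01 : r 0 ∩ r 1 = {σ}) (h23 : r 2 ∩ r 3 = {cc L * σ}) (hσ : σ ∉ κ) : Alg T j r := by
  have h0 : σ ∈ r 0 := by
    have h : σ ∈ r 0 ∩ r 1 := by
      rw [h01]
      exact Set.mem_singleton σ
    exact h.1
  have h2 : σ ∈ (r 2)ᶜ := by
    have h : cc L * σ ∈ r 2 ∩ r 3 := by
      rw [h23]
      exact Set.mem_singleton _
    intro h3
    exact (hr 2 σ).1 h3 h.1
  have e1 : (toggle σ (r 0))ᶜ = r 1 :=
    half_unique (hr 0) ((hr 0).toggle σ).compl (hr 1) (by rw [inter_toggle (hr 0) h0, h01])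
  have e3 : toggle σ (r 2)ᶜ = r 3 := by
    have h4 : cc L * σ ∈ r 2 := by
      by_contra h5
      exact h2 ((hr 2 σ).2 h5)
    have h5 : toggle (cc L * σ) (r 2) = toggle σ (r 2) := by
      ext τ
      rw [mem_toggle, mem_toggle, cc_mul_cc_mul]
      tauto
    refine half_unique (hr 2) ((hr 2).compl.toggle σ) (hr 3) ?_
    rw [toggle_compl, ← h5, inter_toggle (hr 2) h4, h23]
  have hA := hR (r 0) (hr 0) σ h0 hσ
  have hB := algM_compl (half_rel hκ (hr 2).compl σ) (hR (r 2)ᶜ (hr 2).compl σ h2 hσ)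
  have hC := algM_add hA hB
  have h6 : rel κ (r 0) σ + (rel κ (r 2)ᶜ σ).map compl =
      ({r 0, r 1, r 2, r 3} + {κ, κᶜ}) + {toggle σ κ, (toggle σ κ)ᶜ} := by
    unfold rel
    rw [e1, e3]
    simp only [Multiset.insert_eq_cons, Multiset.map_cons, Multiset.map_singleton, compl_compl]
    simp only [← Multiset.singleton_add]
    abel
  rw [h6] at hC
  have hE : ∀ R ∈ ({r 0, r 1, r 2, r 3} : Multiset (Set (L ≃ₐ[ℚ] L))), IsHalf R := by
    intro R hR
    simp only [Multiset.insert_eq_cons, Multiset.mem_cons, Multiset.mem_singleton] at hR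
    rcases hR with rfl | rfl | rfl | rfl
    · exact hr 0
    · exact hr 1
    · exact hr 2
    · exact hr 3
  have hF : ∀ R ∈ ({r 0, r 1, r 2, r 3} : Multiset (Set (L ≃ₐ[ℚ] L))) + {κ, κᶜ}, IsHalf R := by
    intro R hR
    rw [Multiset.mem_add] at hR
    rcases hR with hR | hR
    · exact hE R hR
    · simp only [Multiset.insert_eq_cons, Multiset.mem_cons, Multiset.mem_singleton] at hR
      rcases hR with rfl | rfl
      · exact hκ
      · exact hκ.compl
  exact alg_of_fin4 (algM_cancel hE hκ (algM_cancel hF (hκ.toggle σ) hC))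

theorem alg_weil {κ : Set (L ≃ₐ[ℚ] L)} (hκ : IsHalf κ)
    (hR : ∀ S : Set (L ≃ₐ[ℚ] L), IsHalf S → ∀ σ ∈ S, σ ∉ κ → AlgM T j (rel κ S σ))
    (r : Fin 4 → Set (L ≃ₐ[ℚ] L)) (hr : ∀ k, IsHalf (r k)) (σ : L ≃ₐ[ℚ] L)
    (h01 : r 0 ∩ r 1 = {σ}) (h23 : r 2 ∩ r 3 = {cc L * σ}) : Alg T j r := by
  by_cases h : σ ∈ κ
  · have h1 : cc L * σ ∉ κ := (hκ σ).1 h
    have h2 : Alg T j ![r 2, r 3, r 0, r 1] := by
      refine alg_weil_aux hκ hR _ ?_ (cc L * σ) h23 ?_ h1
      · intro k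
        fin_cases k
        · exact hr 2
        · exact hr 3
        · exact hr 0
        · exact hr 1
      · rw [cc_mul_cc_mul]
        exact h01
    have h3 := algM_fin4 h2
    refine alg_of_fin4 ?_
    have h4 : ({r 0, r 1, r 2, r 3} : Multiset (Set (L ≃ₐ[ℚ] L))) = {r 2, r 3, r 0, r 1} := by
      simp only [Multiset.insert_eq_cons, ← Multiset.singleton_add]
      abel
    rw [h4]
    exact h3
  · exact alg_weil_aux hκ hR r hr σ h01 h23 h

variable {κ κ' : Type} [Fintype κ] [DecidableEq κ] [Fintype κ'] [DecidableEq κ']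

theorem alg_of_exch (hW : ∀ (r : Fin 4 → Set (L ≃ₐ[ℚ] L)), (∀ k, IsHalf (r k)) → ∀ σ : L ≃ₐ[ℚ] L,
      r 0 ∩ r 1 = {σ} → r 2 ∩ r 3 = {cc L * σ} → Alg T j r) {s : κ → Set (L ≃ₐ[ℚ] L)} (hs : ∀ k, IsHalf (s k))
    (σ : L ≃ₐ[ℚ] L) (b l : κ) (hbl : b ≠ l) (hb : σ ∈ s b) (hl : σ ∉ s l)
    (h : Alg T j (exch s σ b l)) : Alg T j s := by
  have hb2 : cc L * σ ∉ s b := (hs b σ).1 hb
  have hl2 : cc L * σ ∈ s l := by
    by_contra h
    exact hl ((hs l σ).2 h)
  let sb := toggle σ (s b)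
  let sl := toggle σ (s l)
  have hsb : IsHalf sb := (hs b).toggle σ
  have hsl : IsHalf sl := (hs l).toggle σ
  -- the Weil class
  let r : Fin 4 → Set (L ≃ₐ[ℚ] L) := ![s b, sbᶜ, s l, slᶜ]
  have hr : ∀ k, IsHalf (r k) := by
    intro k
    fin_cases k
    · exact hs b
    · exact hsb.compl
    · exact hs l
    · exact hsl.compl
  have hcs := cc_mul_ne (L := L) σ
  have hr1 : Alg T j r := by
    refine hW r hr σ ?_ ?_
    · ext τ
      change (τ ∈ s b ∧ ¬ (τ ∈ toggle σ (s b))) ↔ τ = σ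
      rw [mem_toggle]
      constructor
      · rintro ⟨h1, h2⟩
        by_contra h3
        apply h2
        left
        exact ⟨h1, h3, fun h4 => hb2 (h4 ▸ h1)⟩
      · rintro rfl
        exact ⟨hb, by tauto⟩
    · ext τ
      change (τ ∈ s l ∧ ¬ (τ ∈ toggle σ (s l))) ↔ τ = cc L * σ
      rw [mem_toggle]
      constructor
      · rintro ⟨h1, h2⟩
        by_contra h3
        apply h2
        left
        exact ⟨h1, fun h4 => hl (h4 ▸ h1), h3⟩
      · rintro rfl
        exact ⟨hl2, by tauto⟩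
  have h1 := alg_sum h hr1
  -- reorder
  let e0 : κ ⊕ Fin 4 ≃ (κ ⊕ Fin 2) ⊕ Fin 2 :=
    (Equiv.sumCongr (Equiv.refl κ) (finSumFinEquiv (m := 2) (n := 2)).symm).trans
      (Equiv.sumAssoc κ (Fin 2) (Fin 2)).symm
  let e1 : Perm ((κ ⊕ Fin 2) ⊕ Fin 2) :=
    Equiv.swap (Sum.inl (Sum.inl b)) (Sum.inl (Sum.inr 0))
  let e2 : Perm ((κ ⊕ Fin 2) ⊕ Fin 2) := Equiv.swap (Sum.inl (Sum.inl l)) (Sum.inr 0)
  have h2 : Alg T j (Sum.elim (Sum.elim s ![sb, sbᶜ]) ![sl, slᶜ]) := by
    refine alg_reindex (e0.trans (e1.trans e2)) h1 ?_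
    rintro (k | k)
    · change Sum.elim (Sum.elim s ![sb, sbᶜ]) ![sl, slᶜ] (e2 (e1 (Sum.inl (Sum.inl k)))) =
        exch s σ b l k
      by_cases hkb : k = b
      · subst hkb
        rw [exch_b]
        have h3 : e1 (Sum.inl (Sum.inl k)) = Sum.inl (Sum.inr 0) := Equiv.swap_apply_left _ _
        have h4 : e2 (Sum.inl (Sum.inr 0)) = Sum.inl (Sum.inr 0) :=
          Equiv.swap_apply_of_ne_of_ne (by simp) (by simp)
        rw [h3, h4]
        rfl
      · have h3 : e1 (Sum.inl (Sum.inl k)) = Sum.inl (Sum.inl k) :=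
          Equiv.swap_apply_of_ne_of_ne (by simpa using hkb) (by simp)
        rw [h3]
        by_cases hkl : k = l
        · subst hkl
          rw [exch_l]
          have h4 : e2 (Sum.inl (Sum.inl k)) = Sum.inr 0 := Equiv.swap_apply_left _ _
          rw [h4]
          rfl
        · have h4 : e2 (Sum.inl (Sum.inl k)) = Sum.inl (Sum.inl k) :=
            Equiv.swap_apply_of_ne_of_ne (by simpa using hkl) (by simp)
          rw [h4, exch_other s σ b l k hkb hkl]
          rfl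
    · fin_cases k
      · change Sum.elim (Sum.elim s ![sb, sbᶜ]) ![sl, slᶜ] (e2 (e1 (Sum.inl (Sum.inr 0)))) = s b
        have h3 : e1 (Sum.inl (Sum.inr 0)) = Sum.inl (Sum.inl b) := Equiv.swap_apply_right _ _
        have h4 : e2 (Sum.inl (Sum.inl b)) = Sum.inl (Sum.inl b) :=
          Equiv.swap_apply_of_ne_of_ne (by simpa using hbl) (by simp)
        rw [h3, h4]
        rfl
      · change Sum.elim (Sum.elim s ![sb, sbᶜ]) ![sl, slᶜ] (e2 (e1 (Sum.inl (Sum.inr 1)))) = sbᶜ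
        have h3 : e1 (Sum.inl (Sum.inr 1)) = Sum.inl (Sum.inr 1) :=
          Equiv.swap_apply_of_ne_of_ne (by simp) (by simp)
        have h4 : e2 (Sum.inl (Sum.inr 1)) = Sum.inl (Sum.inr 1) :=
          Equiv.swap_apply_of_ne_of_ne (by simp) (by simp)
        rw [h3, h4]
        rfl
      · change Sum.elim (Sum.elim s ![sb, sbᶜ]) ![sl, slᶜ] (e2 (e1 (Sum.inr 0))) = s l
        have h3 : e1 (Sum.inr 0) = Sum.inr 0 :=
          Equiv.swap_apply_of_ne_of_ne (by simp) (by simp)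
        have h4 : e2 (Sum.inr 0) = Sum.inl (Sum.inl l) := Equiv.swap_apply_right _ _
        rw [h3, h4]
        rfl
      · change Sum.elim (Sum.elim s ![sb, sbᶜ]) ![sl, slᶜ] (e2 (e1 (Sum.inr 1))) = slᶜ
        have h3 : e1 (Sum.inr 1) = Sum.inr 1 :=
          Equiv.swap_apply_of_ne_of_ne (by simp) (by simp)
        have h4 : e2 (Sum.inr 1) = Sum.inr 1 :=
          Equiv.swap_apply_of_ne_of_ne (by simp) (by simp)
        rw [h3, h4]
        rfl
  have h3 : Alg T j (Sum.elim s ![sb, sbᶜ]) := by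
    refine alg_cancel j ?_ hsl h2
    rintro (k | k)
    · exact hs k
    · fin_cases k
      · exact hsb
      · exact hsb.compl
  exact alg_cancel j hs hsb h3

/-- **Uncrossing.** Every balanced family of half systems. -/
theorem alg_of_balanced (hW : ∀ (r : Fin 4 → Set (L ≃ₐ[ℚ] L)), (∀ k, IsHalf (r k)) → ∀ σ : L ≃ₐ[ℚ] L,
      r 0 ∩ r 1 = {σ} → r 2 ∩ r 3 = {cc L * σ} → Alg T j r) (n : ℕ) : ∀ (κ : Type) [Fintype κ] [DecidableEq κ],
    Fintype.card κ = n → ∀ (s : κ → Set (L ≃ₐ[ℚ] L)), (∀ k, IsHalf (s k)) → Balanced s →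
      Alg T j s := by
  classical
  induction n using Nat.strong_induction_on with
  | _ n ih =>
    intro κ _ _ hn s hs hbal
    rcases isEmpty_or_nonempty κ with he | ⟨⟨a⟩⟩
    · exact alg_empty j s
    -- a second index
    have hb : ∃ b, a ≠ b := by
      by_contra hcon
      push Not at hcon
      have h1 := hbal 1
      have h2 : Fintype.card κ = 1 := Fintype.card_eq_one_iff.2 ⟨a, fun x => (hcon x).symm⟩
      have h3 : (Finset.univ : Finset κ) = {a} := by
        ext x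
        simp [(hcon x).symm]
      rw [h3, Finset.sum_singleton] at h1
      by_cases h4 : (1 : L ≃ₐ[ℚ] L) ∈ s a
      · rw [if_pos h4] at h1
        exact absurd h1 (by norm_num)
      · rw [if_neg h4] at h1
        exact absurd h1 (by norm_num)
    obtain ⟨b, hab⟩ := hb
    have key : ∀ m : ℕ, ∀ s : κ → Set (L ≃ₐ[ℚ] L), (∀ k, IsHalf (s k)) → Balanced s →
        (s a ∩ s b).ncard = m → Alg T j s := by
      intro m
      induction m with
      | zero =>
        intro s hs hbal hm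
        have h1 : s a ∩ s b = ∅ := (Set.ncard_eq_zero (Set.toFinite _)).1 hm
        have h2 := compl_of_disjoint (hs a) (hs b) h1
        have hcard := card_split a b hab
        exact alg_split a b hab h2 (ih _ (by omega) _ rfl _ (fun k => hs k.1)
          (balanced_rest hbal a b hab h2))
      | succ m ihm =>
        intro s hs hbal hm
        have h1 : (s a ∩ s b).Nonempty := by
          rw [← Set.ncard_pos (Set.toFinite _)]
          omega
        obtain ⟨σ, hσa, hσb⟩ := h1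
        obtain ⟨l, hla, hlb, hl⟩ := exists_other hbal σ a b hab hσa hσb
        refine alg_of_exch hW hs σ b l (Ne.symm hlb) hσb hl
          (ihm _ (exch_half hs σ b l) (exch_balanced hs hbal σ b l (Ne.symm hlb) hσb hl) ?_)
        rw [exch_other s σ b l a hab (Ne.symm hla), exch_b]
        have hca : cc L * σ ∉ s a := (hs a σ).1 hσa
        have h2 : s a ∩ toggle σ (s b) = (s a ∩ s b) \ {σ} := by
          ext τ
          rw [Set.mem_inter_iff, mem_toggle, Set.mem_sdiff, Set.mem_inter_iff,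
            Set.mem_singleton_iff]
          constructor
          · rintro ⟨h3, h4 | ⟨h4, h5 | h5⟩⟩
            · exact ⟨⟨h3, h4.1⟩, h4.2.1⟩
            · subst h5
              exact absurd hσb h4
            · subst h5
              exact absurd h3 hca
          · rintro ⟨⟨h3, h4⟩, h5⟩
            exact ⟨h3, Or.inl ⟨h4, h5, fun h6 => hca (h6 ▸ h3)⟩⟩
        rw [h2, Set.ncard_sdiff_singleton_of_mem (show σ ∈ s a ∩ s b from ⟨hσa, hσb⟩), hm]
        rfl
    exact key _ s hs hbal rfl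

/-- The embeddings of a subfield into `ℂ` factor through `j`. -/
theorem exists_factor {E : Type} [Field E] [NumberField E] (j : L →+* ℂ) (ε : E →+* L)
    (ψ : E →+* ℂ) : ∃ φ : E →+* L, j.comp φ = ψ := by
  let _ := ε.toAlgebra
  let _ := ψ.toAlgebra
  have : IsScalarTower ℚ E L := inferInstance
  have : FiniteDimensional E L := Module.Finite.of_restrictScalars_finite ℚ E L
  let χ : L →ₐ[E] ℂ := IsAlgClosed.lift
  obtain ⟨σ, hσ⟩ := comp_surjective j (χ : L →+* ℂ)
  refine ⟨(σ : L →+* L).comp ε, ?_⟩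
  ext x
  have h1 := RingHom.congr_fun hσ (ε x)
  exact h1.trans (χ.commutes x)

theorem gen_of_hodge (hW : ∀ (r : Fin 4 → Set (L ≃ₐ[ℚ] L)), (∀ k, IsHalf (r k)) →
      ∀ σ : L ≃ₐ[ℚ] L, r 0 ∩ r 1 = {σ} → r 2 ∩ r 3 = {cc L * σ} → Alg T j r)
    (X : CMAV) (hX : SplitBy L X) {κ : Type} [Finite κ] (f : X.H1 [⋀^κ]→ₗ[ℚ] ℚ)
    (hf : IsHodge X.per f) : T.alg X κ f := by
  classical
  have := Fintype.ofFinite κ
  have hj : ∀ i, ∀ ψ : (X.factor i).E →+* ℂ, ∃ φ : (X.factor i).E →+* L, j.comp φ = ψ := by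
    intro i ψ
    obtain ⟨ε⟩ := hX i
    exact exists_factor j ε ψ
  apply gen_of_LSp (L := L)
  obtain ⟨c, hc⟩ := form_coeff (E := fun i : X.I => (X.factor i).E) (fun i : X.I => i) j hj
    f.toMultilinearMap
  have hmono : ∀ I : κ → Wt X L, c I ≠ 0 → mono I ∈ LSp T L X κ := by
    intro I hI
    have h1 : Balanced (fun k => St j (I k)) := by
      intro σ
      have h2 := balanced_of_hodge (E := fun i : X.I => (X.factor i).E)
        (Φ := fun i : X.I => (X.factor i).Φ) (fun i : X.I => i) j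
        (fun i => (X.factor i).isCMType) hj f hf c hc I hI σ
      exact h2
    exact alg_of_balanced hW _ κ rfl (fun k => St j (I k)) (fun k => isHalf_St j (I k)) h1 X I
      (fun k => rfl)
  have hsum : ((Fintype.card (Perm κ) : ℕ) : L) • (fun v : κ → X.H1 => ((f v : ℚ) : L)) =
      ∑ I : κ → Wt X L, c I • mono I := by
    funext v
    rw [Finset.sum_apply, Pi.smul_apply, smul_eq_mul]
    have h1 : ∀ σ : Perm κ, ((f v : ℚ) : L) = ((Perm.sign σ : ℤ) : L) *
        ∑ I : κ → Wt X L, c I * ∏ k, ev (v (σ k)) (I k) := by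
      intro σ
      have h2 : ((f (fun k => v (σ k)) : ℚ) : L) =
          ∑ I : κ → Wt X L, c I * ∏ k, ev (v (σ k)) (I k) := hc (fun k => v (σ k))
      rw [← h2]
      have h3 : f (fun k => v (σ k)) = Perm.sign σ • f v := f.map_perm v σ
      rw [h3, Units.smul_def, zsmul_eq_mul, Rat.cast_mul, Rat.cast_intCast, ← mul_assoc,
        ← Int.cast_mul, ← Units.val_mul, Int.units_mul_self, Units.val_one, Int.cast_one, one_mul]
    have h4 : ((Fintype.card (Perm κ) : ℕ) : L) * ((f v : ℚ) : L) =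
        ∑ σ : Perm κ, ((Perm.sign σ : ℤ) : L) *
          ∑ I : κ → Wt X L, c I * ∏ k, ev (v (σ k)) (I k) := by
      rw [← Finset.sum_congr rfl (fun σ _ => h1 σ), Finset.sum_const, Finset.card_univ,
        nsmul_eq_mul]
    rw [h4]
    simp only [Finset.mul_sum]
    rw [Finset.sum_comm]
    refine Finset.sum_congr rfl fun I _ => ?_
    rw [Pi.smul_apply, smul_eq_mul, mono_apply, Finset.mul_sum]
    refine Finset.sum_congr rfl fun σ _ => ?_
    ring
  have h5 : ((Fintype.card (Perm κ) : ℕ) : L) • (fun v : κ → X.H1 => ((f v : ℚ) : L)) ∈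
      LSp T L X κ := by
    rw [hsum]
    refine Submodule.sum_mem _ fun I _ => ?_
    by_cases hI : c I = 0
    · rw [hI, zero_smul]
      exact Submodule.zero_mem _
    · exact Submodule.smul_mem _ _ (hmono I hI)
  have hne : ((Fintype.card (Perm κ) : ℕ) : L) ≠ 0 := Nat.cast_ne_zero.2 Fintype.card_ne_zero
  have h6 := Submodule.smul_mem _ (((Fintype.card (Perm κ) : ℕ) : L))⁻¹ h5
  rwa [smul_smul, inv_mul_cancel₀ hne, one_smul] at h6

end

end Pool.Agent.W547.OC
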