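import Pool.Agent.W547.OC.Final

/-!
# One class of codimension two for each CM type
-/

set_option linter.unusedSectionVars false
set_option linter.unusedVariables false

namespace Pool.Agent.W547.OC

open NumberField Pool.Agent.H204R3.CM Pool.Agent.W547.KB Equiv Module

noncomputable section

variable {T : CycleTheory} {B : CMPair} {L : Type} [Field L] [NumberField L] [IsCMField L]
  [IsGalois ℚ L]

theorem inducedType_eq (j : L →+* ℂ) (ι : B.E →+* L) :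
    inducedType B ι = typeOf j (kap B j ι) := (typeOf_kap j ι).symm

theorem typeOf_sdiff (j : L →+* ℂ) (S S' : Set (L ≃ₐ[ℚ] L)) :
    typeOf j S \ typeOf j S' = typeOf j (S \ S') :=
  (Set.image_sdiff (comp_injective j) S S').symm

theorem ncard_typeOf (j : L →+* ℂ) (S : Set (L ≃ₐ[ℚ] L)) : (typeOf j S).ncard = S.ncard :=
  Set.ncard_image_of_injective _ (comp_injective j)

/-- The types of the special class. -/
def spr (κ S : Set (L ≃ₐ[ℚ] L)) (σ : L ≃ₐ[ℚ] L) : Fin 4 → Set (L ≃ₐ[ℚ] L) :=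
  ![S, (toggle σ S)ᶜ, (toggle σ κ)ᶜ, κ]

theorem spr_half {κ S : Set (L ≃ₐ[ℚ] L)} (hκ : IsHalf κ) (hS : IsHalf S) (σ : L ≃ₐ[ℚ] L) (k) :
    IsHalf (spr κ S σ k) := by
  fin_cases k
  · exact hS
  · exact (hS.toggle σ).compl
  · exact (hκ.toggle σ).compl
  · exact hκ

theorem inter_toggle' {κ : Set (L ≃ₐ[ℚ] L)} (hκ : IsHalf κ) {σ : L ≃ₐ[ℚ] L} (h : σ ∉ κ) :
    (toggle σ κ)ᶜ ∩ κ = {cc L * σ} := by
  have h4 : cc L * σ ∈ κ := by
    by_contra h5
    exact h ((hκ σ).2 h5)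
  have h5 : toggle (cc L * σ) κ = toggle σ κ := by
    ext τ
    rw [mem_toggle, mem_toggle, cc_mul_cc_mul]
    tauto
  rw [Set.inter_comm, ← h5]
  exact inter_toggle hκ h4

theorem rel_of_special (j : L →+* ℂ) (ι : B.E →+* L) (S : Set (L ≃ₐ[ℚ] L)) (hS : IsHalf S)
    (σ : L ≃ₐ[ℚ] L) (h1 : σ ∈ S) (h2 : σ ∉ kap B j ι)
    (h : SpecialAlg T B L ι (typeOf j S) (j.comp (σ : L →+* L))) :
    AlgM T j (rel (kap B j ι) S σ) := by
  have hκ := isHalf_kap (B := B) j ι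
  exact algM_fin4 (alg_weilB j ι (spr (kap B j ι) S σ) (spr_half hκ hS σ) rfl σ
    (inter_toggle hS h1) (inter_toggle' hκ h2) h)

theorem special_of_hodge (j : L →+* ℂ) (ι : B.E →+* L)
    (h : ∀ X : CMAV, SplitBy L X → ∀ (κ : Type) [Finite κ] (f : X.H1 [⋀^κ]→ₗ[ℚ] ℚ),
      IsHodge X.per f → T.alg X κ f) (S : Set (L ≃ₐ[ℚ] L)) (hS : IsHalf S)
    (σ : L ≃ₐ[ℚ] L) (h1 : σ ∈ S) (h2 : σ ∉ kap B j ι) :
    SpecialAlg T B L ι (typeOf j S) (j.comp (σ : L →+* L)) := by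
  have hκ := isHalf_kap (B := B) j ι
  let r := spr (kap B j ι) S σ
  have hr : ∀ k, IsHalf (r k) := spr_half hκ hS σ
  let Ψ : Fin 3 → Set (L →+* ℂ) := fun i => typeOf j (r i.castSucc)
  have hΨ : ∀ i, IsCMType (Ψ i) := fun i => isCMType_typeOf j (hr _)
  have e1 : Ψ 0 ∩ Ψ 1 = {j.comp (σ : L →+* L)} := by
    change typeOf j S ∩ typeOf j (toggle σ S)ᶜ = _
    rw [typeOf_inter, inter_toggle hS h1, typeOf_singleton]
  have e2 : Ψ 2 ∩ inducedType B ι = {ComplexEmbedding.conjugate (j.comp (σ : L →+* L))} := by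
    change typeOf j (toggle σ (kap B j ι))ᶜ ∩ inducedType B ι = _
    rw [inducedType_eq j ι, typeOf_inter, inter_toggle' hκ h2, typeOf_singleton, comp_cc]
  have hf := weilForm_trForm ι Ψ hΨ 1
  refine ⟨Ψ, hΨ, trForm 1 (spI B ι Ψ hΨ), rfl, e1, e2, hf, ?_⟩
  refine h _ ?_ _ _ (hodge_weil ι Ψ hΨ _ e1 e2 1 _ hf)
  rintro (i | u)
  · exact ⟨RingHom.id L⟩
  · exact ⟨ι⟩

theorem hodge_iff_special (T : CycleTheory) (B : CMPair) (L : Type) [Field L] [NumberField L]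
    [IsCMField L] [IsGalois ℚ L] (ι : B.E →+* L) :
    (∀ X : CMAV, SplitBy L X → ∀ (κ : Type) [Finite κ] (f : X.H1 [⋀^κ]→ₗ[ℚ] ℚ),
      IsHodge X.per f → T.alg X κ f) ↔ OneForEachType T B L ι := by
  obtain ⟨j⟩ : Nonempty (L →+* ℂ) := inferInstance
  constructor
  · intro h Φ hΦ h2 _
    have h3 : (Φ \ inducedType B ι).Nonempty := by
      rw [← Set.ncard_pos (Set.toFinite _)]
      omega
    obtain ⟨ρ, hρ⟩ := h3
    refine ⟨ρ, hρ, ?_⟩
    obtain ⟨S, hS, rfl⟩ := exists_half j hΦ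
    obtain ⟨σ, rfl⟩ := comp_surjective j ρ
    refine special_of_hodge j ι h S hS σ ?_ ?_
    · exact (mem_typeOf j S σ).1 hρ.1
    · intro h4
      refine hρ.2 ?_
      rw [inducedType_eq j ι]
      exact (mem_typeOf j _ σ).2 h4
  · intro h X hX κ _ f hf
    have hκ := isHalf_kap (B := B) j ι
    refine gen_of_hodge (j := j) (alg_weil hκ ?_) X hX f hf
    intro S hS σ h1 h2
    refine algM_rel (kap B j ι) hκ ?_ S hS σ h1 h2
    intro S hS h3 h4
    have e1 : typeOf j S \ inducedType B ι = typeOf j (S \ kap B j ι) := by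
      rw [inducedType_eq j ι, typeOf_sdiff]
    have e2 : typeOf j S ∩ inducedType B ι = typeOf j (S ∩ kap B j ι) := by
      rw [inducedType_eq j ι, typeOf_inter]
    obtain ⟨ρ, hρ, hsp⟩ := h (typeOf j S) (isCMType_typeOf j hS)
      (by rw [e1, ncard_typeOf]; exact h3)
      (by rw [e1, e2, ncard_typeOf, ncard_typeOf]; exact h4)
    obtain ⟨σ, rfl⟩ := comp_surjective j ρ
    have h5 : σ ∈ S \ kap B j ι := by
      rw [e1] at hρ
      exact (mem_typeOf j _ σ).1 hρ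
    exact ⟨σ, h5, rel_of_special j ι S hS σ h5.1 h5.2 hsp⟩

theorem all_hodge_iff_special (T : CycleTheory) (B : CMPair) :
    (∀ X : CMAV, ∀ (κ : Type) [Finite κ] (f : X.H1 [⋀^κ]→ₗ[ℚ] ℚ),
      IsHodge X.per f → T.alg X κ f) ↔
    ∀ (L : Type) [Field L] [NumberField L] [IsCMField L] [IsGalois ℚ L] (ι : B.E →+* L),
      OneForEachType T B L ι := by
  constructor
  · intro h L _ _ _ _ ι
    exact (hodge_iff_special T B L ι).1 fun X _ κ _ f hf => h X κ f hf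
  · intro h X κ _ f hf
    obtain ⟨L, _, _, _, _, j, hj'⟩ := exists_cm (X.prod (single B))
    obtain ⟨ι, -⟩ := hj' (Sum.inr ()) (Classical.choice inferInstance)
    refine (hodge_iff_special T B L ι).2 (h L ι) X ?_ κ f hf
    intro i
    obtain ⟨φ, -⟩ := hj' (Sum.inl i) (Classical.choice inferInstance)
    exact ⟨φ⟩

end

end Pool.Agent.W547.OC
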