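import Pool.Agent.W547.OC.Weil

/-!
# Multisets of half systems
-/

set_option linter.unusedSectionVars false
set_option linter.unusedVariables false

namespace Pool.Agent.W547.OC

open NumberField Pool.Agent.H204R3.CM Pool.Agent.W547.KB Equiv Module

noncomputable section

/-- Two families with the same multiset of values. -/
theorem exists_equiv {A κ κ' : Type} [Fintype κ] [Fintype κ'] (s : κ → A) (s' : κ' → A)
    (h : (Finset.univ : Finset κ).val.map s = (Finset.univ : Finset κ').val.map s') :
    ∃ e : κ ≃ κ', ∀ k, s' (e k) = s k := by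
  classical
  have h1 : ∀ a : A, Nonempty ({k // s k = a} ≃ {k // s' k = a}) := by
    intro a
    refine ⟨Fintype.equivOfCardEq ?_⟩
    have h2 := congrArg (Multiset.count a) h
    rw [Multiset.count_map, Multiset.count_map] at h2
    rw [Fintype.card_subtype, Fintype.card_subtype]
    have h3 : ∀ (κ : Type) [Fintype κ] (s : κ → A),
        (Finset.univ.filter (fun k => s k = a)).card =
          Multiset.card ((Finset.univ : Finset κ).val.filter (fun k => a = s k)) := by
      intro κ _ s
      rw [Finset.card_def, Finset.filter_val]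
      congr 1
      refine Multiset.filter_congr fun k _ => ?_
      exact eq_comm
    rw [h3, h3, h2]
  let e := fun a => Classical.choice (h1 a)
  exact ⟨Equiv.ofFiberEquiv e, fun k => Equiv.ofFiberEquiv_map e k⟩

variable {T : CycleTheory} {L : Type} [Field L] [NumberField L] [IsCMField L] [IsGalois ℚ L]
  {j : L →+* ℂ}

/-- The families with the given multiset of half systems. -/
def AlgM (T : CycleTheory) (j : L →+* ℂ) (m : Multiset (Set (L ≃ₐ[ℚ] L))) : Prop :=
  ∀ (κ : Type) [Fintype κ] [DecidableEq κ] (s : κ → Set (L ≃ₐ[ℚ] L)),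
    (Finset.univ : Finset κ).val.map s = m → Alg T j s

theorem algM_of {κ : Type} [Fintype κ] [DecidableEq κ] {s : κ → Set (L ≃ₐ[ℚ] L)}
    (h : Alg T j s) : AlgM T j ((Finset.univ : Finset κ).val.map s) := by
  intro κ' _ _ s' hs'
  obtain ⟨e, he⟩ := exists_equiv s s' hs'.symm
  exact alg_reindex e h he

theorem algM_fin4 {s : Fin 4 → Set (L ≃ₐ[ℚ] L)} (h : Alg T j s) :
    AlgM T j {s 0, s 1, s 2, s 3} := algM_of h

theorem alg_of_fin4 {s : Fin 4 → Set (L ≃ₐ[ℚ] L)} (h : AlgM T j {s 0, s 1, s 2, s 3}) :
    Alg T j s := h (Fin 4) s rfl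

theorem algM_pair (S : Set (L ≃ₐ[ℚ] L)) : AlgM T j {S, Sᶜ} := algM_of (alg_pair j S)

theorem algM_zero : AlgM T j 0 := algM_of (s := fun k : Empty => k.elim) (alg_empty j _)

theorem algM_add {m m' : Multiset (Set (L ≃ₐ[ℚ] L))} (h : AlgM T j m) (h' : AlgM T j m') :
    AlgM T j (m + m') := by
  classical
  have h1 : Alg T j (fun x : Fin m.toList.length => m.toList.get x) := by
    refine h _ _ ?_
    rw [Fin.univ_val_map, List.ofFn_get, Multiset.coe_toList]
  have h2 : Alg T j (fun x : Fin m'.toList.length => m'.toList.get x) := by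
    refine h' _ _ ?_
    rw [Fin.univ_val_map, List.ofFn_get, Multiset.coe_toList]
  have h3 := algM_of (alg_sum h1 h2)
  rw [← Finset.univ_disjSum_univ, Finset.val_disjSum, Multiset.map_disjSum] at h3
  have h4 : Multiset.map (fun x => Sum.elim (fun x => m.toList.get x) (fun x => m'.toList.get x)
      (Sum.inl x)) (Finset.univ : Finset (Fin m.toList.length)).val = m := by
    change Multiset.map (fun x => m.toList.get x) _ = m
    rw [Fin.univ_val_map, List.ofFn_get, Multiset.coe_toList]
  have h5 : Multiset.map (fun x => Sum.elim (fun x => m.toList.get x) (fun x => m'.toList.get x)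
      (Sum.inr x)) (Finset.univ : Finset (Fin m'.toList.length)).val = m' := by
    change Multiset.map (fun x => m'.toList.get x) _ = m'
    rw [Fin.univ_val_map, List.ofFn_get, Multiset.coe_toList]
  convert h3 using 2
  · exact h4.symm
  · exact h5.symm

theorem algM_cancel {m : Multiset (Set (L ≃ₐ[ℚ] L))} (hm : ∀ S ∈ m, IsHalf S)
    {S : Set (L ≃ₐ[ℚ] L)} (hS : IsHalf S) (h : AlgM T j (m + {S, Sᶜ})) : AlgM T j m := by
  intro κ _ _ s hs
  refine alg_cancel j ?_ hS (h _ _ ?_)
  · intro k
    refine hm _ ?_
    rw [← hs]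
    exact Multiset.mem_map_of_mem s (Finset.mem_univ k)
  · rw [← Finset.univ_disjSum_univ, Finset.val_disjSum, Multiset.map_disjSum]
    have h1 : Multiset.map (fun x => Sum.elim s ![S, Sᶜ] (Sum.inl x))
        (Finset.univ : Finset κ).val = m := hs
    have h2 : Multiset.map (fun x => Sum.elim s ![S, Sᶜ] (Sum.inr x))
        (Finset.univ : Finset (Fin 2)).val = {S, Sᶜ} := rfl
    rw [h1, h2]

theorem algM_compl {m : Multiset (Set (L ≃ₐ[ℚ] L))} (hm : ∀ S ∈ m, IsHalf S)
    (h : AlgM T j m) : AlgM T j (m.map compl) := by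
  classical
  have h1 : Multiset.map (fun x : Fin m.toList.length => m.toList.get x) Finset.univ.val = m := by
    rw [Fin.univ_val_map, List.ofFn_get, Multiset.coe_toList]
  have h2 := alg_compl j (fun k => hm _ (by
    rw [← Multiset.mem_toList]
    exact List.get_mem _ k)) (h _ _ h1)
  have h3 := algM_of h2
  have h4 : Multiset.map (fun k : Fin m.toList.length => (m.toList.get k)ᶜ) Finset.univ.val =
      m.map compl := by
    conv_rhs => rw [← h1]
    rw [Multiset.map_map]
    rfl
  rwa [h4] at h3

theorem algM_sum_pairs {ι : Type} (F : Finset ι) (m : ι → Multiset (Set (L ≃ₐ[ℚ] L)))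
    (h : ∀ i ∈ F, AlgM T j (m i)) : AlgM T j (∑ i ∈ F, m i) := by
  classical
  induction F using Finset.induction_on with
  | empty => exact algM_zero
  | insert a F ha ih =>
    rw [Finset.sum_insert ha]
    exact algM_add (h a (Finset.mem_insert_self a F))
      (ih fun i hi => h i (Finset.mem_insert_of_mem hi))

theorem algM_cancel_sum {m : Multiset (Set (L ≃ₐ[ℚ] L))} (hm : ∀ S ∈ m, IsHalf S)
    {ι : Type} (F : Finset ι) (a : ι → Set (L ≃ₐ[ℚ] L)) (ha : ∀ i ∈ F, IsHalf (a i))
    (h : AlgM T j (m + ∑ i ∈ F, {a i, (a i)ᶜ})) : AlgM T j m := by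
  classical
  induction F using Finset.induction_on generalizing m with
  | empty => simpa using h
  | insert b F hb ih =>
    rw [Finset.sum_insert hb] at h
    refine ih hm (fun i hi => ha i (Finset.mem_insert_of_mem hi)) ?_
    refine algM_cancel ?_ (ha b (Finset.mem_insert_self b F)) (S := a b) ?_
    · intro S hS
      rw [Multiset.mem_add] at hS
      rcases hS with hS | hS
      · exact hm S hS
      · rw [Multiset.mem_sum] at hS
        obtain ⟨i, hi, hS⟩ := hS
        have h1 := ha i (Finset.mem_insert_of_mem hi)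
        rw [Multiset.insert_eq_cons, Multiset.mem_cons, Multiset.mem_singleton] at hS
        rcases hS with rfl | rfl
        · exact h1
        · exact h1.compl
    · rw [add_assoc, add_comm (∑ i ∈ F, _)]
      exact h

end

end Pool.Agent.W547.OC
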