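import Pool.Agent.W547.OC.Defs
import Pool.Agent.W547.LN.TDefs

/-!
# Classes generated by one special class for each CM type
-/

namespace Pool.Agent.W547.OC

open NumberField Pool.Agent.H204R3.CM Pool.Agent.W547.KB Pool.Agent.W530.NF

/-- The class `g` on `X` belongs to every system of classes (with the closure properties of the
algebraic classes) which contains, for each CM type `Φ` of `L` that differs from the CM type
induced from `B` in at least two places, and in at most one place more than it agrees with it, one
of the special classes of `Φ`. That is: for every choice of one special class for each such `Φ`, the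
class `g` lies in the smallest system generated by these special classes. -/
def Generated (B : CMPair) (L : Type) [Field L] [NumberField L] [IsCMField L] (ι : B.E →+* L)
    {X : CMAV} {κ : Type} (g : X.H1 [⋀^κ]→ₗ[ℚ] ℚ) : Prop :=
  ∀ T : CycleTheory, OneForEachType T B L ι → T.alg X κ g

/-- `f` is a linear combination, with coefficients in `K = ℚ_ℓ`, of classes on `X` that are generated
by one special class for each CM type. -/
def IsCombination (B : CMPair) (L : Type) [Field L] [NumberField L] [IsCMField L] (ι : B.E →+* L)
    {X : CMAV} {K V : Type} [Field K] [AddCommGroup V] [Module K V]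
    (C : Comparison X K V) {κ : Type} (f : V [⋀^κ]→ₗ[K] K) : Prop :=
  ∃ (r : ℕ) (c : Fin r → K) (g : Fin r → X.H1 [⋀^κ]→ₗ[ℚ] ℚ), (∀ i, Generated B L ι (g i)) ∧
    ∀ v : κ → X.H1, f (fun k => C.ι (v k)) = ∑ i, c i * (g i v : K)

end Pool.Agent.W547.OC
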