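import Pool.Agent.W547.OC.Main
import Pool.Agent.W547.OC.TateDefs
import Pool.Agent.W547.LN.Tate

/-!
# Tate classes are generated by one special class for each CM type
-/

set_option linter.unusedSectionVars false
set_option linter.unusedVariables false

namespace Pool.Agent.W547.OC

open NumberField Pool.Agent.H204R3.CM Pool.Agent.W547.KB Pool.Agent.W547.LD Pool.Agent.W530.NF
open Pool.Agent.W547.LN Equiv Module

noncomputable section

theorem generated_of_hodge (B : CMPair) (L : Type) [Field L] [NumberField L]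
    [IsCMField L] [IsGalois ℚ L] (ι : B.E →+* L) {X : CMAV} (hX : SplitBy L X) {κ : Type}
    [Finite κ] (g : X.H1 [⋀^κ]→ₗ[ℚ] ℚ) (hg : IsHodge X.per g) : Generated B L ι g :=
  fun T hT => (hodge_iff_special T B L ι).2 hT X hX κ g hg

/-- A form on the Tate module multiplied by a power of `q` by a power of the Frobenius element is a
combination of Hodge classes. -/
theorem hodge_of_frobenius (X : CMAV) {K V : Type} [Field K] [CharZero K]
    [AddCommGroup V] [Module K V] (C : Comparison X K V) (w : AbsoluteValue ℂ ℝ)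
    (q : ℕ) (hq : q ≠ 0) (hw : w q < 1) (π : X.H1)
    (hπ : ShimuraTaniyama X w q π) (N m : ℕ) (hN : N ≠ 0)
    (f : V [⋀^Fin (2 * m)]→ₗ[K] K)
    (hf : ∀ v : Fin (2 * m) → X.H1, f (fun k => C.ι (π ^ N * v k)) =
      (q : K) ^ (m * N) * f (fun k => C.ι (v k))) :
    ∃ (r : ℕ) (c : Fin r → K) (g : Fin r → X.H1 [⋀^Fin (2 * m)]→ₗ[ℚ] ℚ),
      (∀ i, IsHodge X.per (g i)) ∧
        ∀ v : Fin (2 * m) → X.H1, f (fun k => C.ι (v k)) = ∑ i, c i * (g i v : K) := by
  classical
  rcases isEmpty_or_nonempty X.I with hI | ⟨⟨i⟩⟩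
  · -- the zero variety
    rcases Nat.eq_zero_or_pos m with hm | hm
    · subst hm
      have : IsEmpty (Fin (2 * 0)) := inferInstanceAs (IsEmpty (Fin 0))
      refine ⟨1, fun _ => f (fun k => isEmptyElim k), fun _ => AlternatingMap.constOfIsEmpty ℚ _ _ 1,
        fun _ => hodge_unit _, fun v => ?_⟩
      rw [Fin.sum_univ_one, AlternatingMap.constOfIsEmpty_apply]
      simp only [Function.const_apply]
      rw [Rat.cast_one, mul_one]
      exact congrArg f (funext fun k => isEmptyElim k)
    · refine ⟨0, fun _ => 0, fun _ => 0, fun i => i.elim0, fun v => ?_⟩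
      rw [Finset.univ_eq_empty, Finset.sum_empty]
      refine f.map_coord_zero (⟨0, by omega⟩ : Fin (2 * m)) ?_
      have h1 : v ⟨0, by omega⟩ = 0 := funext fun i => isEmptyElim i
      rw [h1, map_zero]
  · let _ : Algebra ℚ K := DivisionRing.toRatAlgebra
    obtain ⟨r, c, g, hg, hsum⟩ := TN.hodge_span X w q hq hw π hπ
      N m hN (by rw [Nat.card_eq_fintype_card, Fintype.card_fin]) (LF.restr C f) hf (X.factor i)
    refine ⟨r, c, g, fun i => hg i, fun v => ?_⟩
    refine (hsum v).trans ?_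
    refine Finset.sum_congr rfl fun i _ => ?_
    rw [Algebra.smul_def, eq_ratCast, mul_comm]

theorem tate_generated (B : CMPair) (L : Type) [Field L] [NumberField L]
    [IsCMField L] [IsGalois ℚ L] (ι : B.E →+* L)
    (X : CMAV) (hX : SplitBy L X) {K V G : Type} [Field K]
    [CharZero K] [AddCommGroup V] [Module K V] [Group G] (C : Comparison X K V)
    (ρ : Representation K G V) (χ : G →* K) (w : AbsoluteValue ℂ ℝ) (q : ℕ) (π : X.H1)
    (γ : G) (h : IsFrobeniusAt X C ρ χ w q π γ) {m : ℕ}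
    (f : V [⋀^Fin (2 * m)]→ₗ[K] K) (hf : IsTateClass ρ χ f) : IsCombination B L ι C f := by
  obtain ⟨Δ, hΔ, hf⟩ := hf
  obtain ⟨N, hN, hNΔ⟩ := exists_pow_mem Δ hΔ γ
  obtain ⟨r, c, g, hg, hsum⟩ := hodge_of_frobenius X C w q h.ne_zero h.lt_one π
    h.shimuraTaniyama N m hN f fun v => by
      have h1 := hf _ hNΔ (fun k => C.ι (v k))
      simp only [pow_apply C.ι ρ γ h.apply_eq] at h1
      rw [map_pow, h.char_eq, ← pow_mul, mul_comm N m] at h1
      exact h1
  exact ⟨r, c, g, fun i => generated_of_hodge B L ι hX (g i) (hg i), hsum⟩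

end

end Pool.Agent.W547.OC
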