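import Pool.Agent.W547.OC.Fam
import Pool.Agent.W547.KB.Main

/-!
# From one special class to a family of four half systems
-/

set_option linter.unusedSectionVars false
set_option linter.unusedVariables false

namespace Pool.Agent.W547.OC

open NumberField Pool.Agent.H204R3.CM Pool.Agent.W547.KB Equiv Module

noncomputable section

variable {T : CycleTheory} {B : CMPair} {L : Type} [Field L] [NumberField L] [IsCMField L]
  [IsGalois ℚ L]

/-- The weights of the special class. -/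
def spI (B : CMPair) (ι : B.E →+* L) (Ψ : Fin 3 → Set (L →+* ℂ)) (hΨ : ∀ i, IsCMType (Ψ i)) :
    Fin 4 → Wt (threeB B L Ψ hΨ) L :=
  ![⟨Sum.inl 0, RingHom.id L⟩, ⟨Sum.inl 1, RingHom.id L⟩, ⟨Sum.inl 2, RingHom.id L⟩,
    ⟨Sum.inr (), ι⟩]

/-- The coordinates in `L`. -/
def cL (B : CMPair) (Ψ : Fin 3 → Set (L →+* ℂ)) (hΨ : ∀ i, IsCMType (Ψ i))
    (w : (threeB B L Ψ hΨ).H1) (i : Fin 3) : L := w (Sum.inl i)

/-- Multiplication by `α` on the first factor. -/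
def mulFirst (B : CMPair) (Ψ : Fin 3 → Set (L →+* ℂ)) (hΨ : ∀ i, IsCMType (Ψ i)) (α : L) :
    (threeB B L Ψ hΨ).H1 →ₗ[ℚ] (threeB B L Ψ hΨ).H1 where
  toFun w := (three L Ψ hΨ).pair (single B)
    (fun i : Fin 3 => (if i = 0 then α else 1) * cL B Ψ hΨ w i)
    (fun u => w (Sum.inr u))
  map_add' w w' := by
    funext s
    rcases s with i | u
    · change (if i = 0 then α else 1) * (cL B Ψ hΨ w i + cL B Ψ hΨ w' i) =
        (if i = 0 then α else 1) * cL B Ψ hΨ w i + (if i = 0 then α else 1) * cL B Ψ hΨ w' i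
      rw [mul_add]
    · rfl
  map_smul' a w := by
    funext s
    rcases s with i | u
    · change (if i = 0 then α else 1) * (a • cL B Ψ hΨ w i) =
        a • ((if i = 0 then α else 1) * cL B Ψ hΨ w i)
      rw [mul_smul_comm]
    · rfl

theorem isHom_mulFirst (Ψ : Fin 3 → Set (L →+* ℂ)) (hΨ : ∀ i, IsCMType (Ψ i)) (α : L) :
    IsHom (threeB B L Ψ hΨ) (threeB B L Ψ hΨ) (mulFirst B Ψ hΨ α) := by
  let H : (threeB B L Ψ hΨ).Tan →ₗ[ℂ] (threeB B L Ψ hΨ).Tan :=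
    LinearMap.pi fun s => match s with
      | Sum.inl i => LinearMap.pi fun φ : Ψ i =>
          (φ.1 (if i = 0 then α else 1)) • ((LinearMap.proj φ).comp
            (LinearMap.proj (R := ℂ) (φ := fun s => (((threeB B L Ψ hΨ).factor s).Φ → ℂ))
              (Sum.inl i)))
      | Sum.inr u => LinearMap.proj (R := ℂ) (φ := fun s => (((threeB B L Ψ hΨ).factor s).Φ → ℂ))
              (Sum.inr u)
  refine ⟨H, fun w => ?_⟩
  funext s φ
  rcases s with i | u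
  · exact (map_mul (φ.1 : L →+* ℂ) (if i = 0 then α else 1) (cL B Ψ hΨ w i)).symm
  · rfl

theorem mono_mulFirst (ι : B.E →+* L) (Ψ : Fin 3 → Set (L →+* ℂ)) (hΨ : ∀ i, IsCMType (Ψ i))
    (α : L) (v : Fin 4 → (threeB B L Ψ hΨ).H1) :
    mono (spI B ι Ψ hΨ) (fun k => mulFirst B Ψ hΨ α (v k)) = α * mono (spI B ι Ψ hΨ) v := by
  rw [mono_apply, mono_apply, Finset.mul_sum]
  refine Finset.sum_congr rfl fun τ _ => ?_
  rw [Fin.prod_univ_four, Fin.prod_univ_four]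
  have h0 : ev (mulFirst B Ψ hΨ α (v (τ 0))) (spI B ι Ψ hΨ 0) =
      α * ev (v (τ 0)) (spI B ι Ψ hΨ 0) := by
    change (if (0 : Fin 3) = 0 then α else 1) * cL B Ψ hΨ (v (τ 0)) 0 = _
    rw [if_pos rfl]
    rfl
  have h1 : ev (mulFirst B Ψ hΨ α (v (τ 1))) (spI B ι Ψ hΨ 1) =
      ev (v (τ 1)) (spI B ι Ψ hΨ 1) := by
    change (if (1 : Fin 3) = 0 then α else 1) * cL B Ψ hΨ (v (τ 1)) 1 = _
    rw [if_neg (by decide), one_mul]
    rfl
  have h2 : ev (mulFirst B Ψ hΨ α (v (τ 2))) (spI B ι Ψ hΨ 2) =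
      ev (v (τ 2)) (spI B ι Ψ hΨ 2) := by
    change (if (2 : Fin 3) = 0 then α else 1) * cL B Ψ hΨ (v (τ 2)) 2 = _
    rw [if_neg (by decide), one_mul]
    rfl
  have h3 : ev (mulFirst B Ψ hΨ α (v (τ 3))) (spI B ι Ψ hΨ 3) =
      ev (v (τ 3)) (spI B ι Ψ hΨ 3) := rfl
  rw [h0, h1, h2, h3]
  ring

theorem weilForm_eq (ι : B.E →+* L) (Ψ : Fin 3 → Set (L →+* ℂ)) (hΨ : ∀ i, IsCMType (Ψ i))
    (α : L) (f : (threeB B L Ψ hΨ).H1 [⋀^Fin 4]→ₗ[ℚ] ℚ) (hf : IsWeilForm B L ι Ψ hΨ α f) :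
    f = trForm α (spI B ι Ψ hΨ) := by
  refine AlternatingMap.ext fun v => ?_
  rw [trForm_apply, mono_eq_det]
  have h4 : v = fun k => (three L Ψ hΨ).pair (single B) (fun i => v k (Sum.inl i))
      (fun i => v k (Sum.inr i)) := by
    funext k s
    cases s <;> rfl
  refine (congrArg f h4).trans ((hf _ _).trans ?_)
  unfold trDet
  congr 3

theorem weilForm_trForm (ι : B.E →+* L) (Ψ : Fin 3 → Set (L →+* ℂ)) (hΨ : ∀ i, IsCMType (Ψ i))
    (α : L) : IsWeilForm B L ι Ψ hΨ α (trForm α (spI B ι Ψ hΨ)) := by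
  intro x t
  rw [trForm_apply, mono_eq_det]
  congr 3

theorem spI_mem (ι : B.E →+* L) (Ψ : Fin 3 → Set (L →+* ℂ)) (hΨ : ∀ i, IsCMType (Ψ i))
    (f : (threeB B L Ψ hΨ).H1 [⋀^Fin 4]→ₗ[ℚ] ℚ) (hf : IsWeilForm B L ι Ψ hΨ 1 f)
    (hT : T.alg (threeB B L Ψ hΨ) (Fin 4) f) :
    mono (spI B ι Ψ hΨ) ∈ LSp T L (threeB B L Ψ hΨ) (Fin 4) := by
  refine mono_mem_of_trForm _ fun α => ?_
  have h1 := T.pull _ (isHom_mulFirst Ψ hΨ α) f hT
  have h2 : f.compLinearMap (mulFirst B Ψ hΨ α) = trForm α (spI B ι Ψ hΨ) := by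
    rw [weilForm_eq ι Ψ hΨ 1 f hf]
    refine AlternatingMap.ext fun v => ?_
    rw [trForm_apply]
    change Algebra.trace ℚ L (1 * mono (spI B ι Ψ hΨ) (fun k => mulFirst B Ψ hΨ α (v k))) = _
    rw [mono_mulFirst, one_mul]
  rwa [h2] at h1

/-! ### Half systems -/

theorem half_unique {S T T' : Set (L ≃ₐ[ℚ] L)} (hS : IsHalf S) (hT : IsHalf T) (hT' : IsHalf T')
    (h : S ∩ T = S ∩ T') : T = T' := by
  have key : ∀ τ ∈ S, (τ ∈ T ↔ τ ∈ T') := by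
    intro τ hτ
    constructor
    · intro h1
      have h2 : τ ∈ S ∩ T := ⟨hτ, h1⟩
      rw [h] at h2
      exact h2.2
    · intro h1
      have h2 : τ ∈ S ∩ T' := ⟨hτ, h1⟩
      rw [← h] at h2
      exact h2.2
  ext τ
  by_cases hτ : τ ∈ S
  · exact key τ hτ
  · have h1 : cc L * τ ∈ S := by
      by_contra h2
      exact hτ ((hS τ).2 h2)
    rw [hT τ, hT' τ, key _ h1]

theorem exists_half (j : L →+* ℂ) {Ψ : Set (L →+* ℂ)} (h : IsCMType Ψ) :
    ∃ S : Set (L ≃ₐ[ℚ] L), IsHalf S ∧ Ψ = typeOf j S := by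
  have h1 : typeOf j {σ : L ≃ₐ[ℚ] L | j.comp (σ : L →+* L) ∈ Ψ} = Ψ := by
    ext φ
    obtain ⟨σ, rfl⟩ := comp_surjective j φ
    exact mem_typeOf j _ σ
  refine ⟨{σ | j.comp (σ : L →+* L) ∈ Ψ}, fun σ => ?_, h1.symm⟩
  change j.comp (σ : L →+* L) ∈ Ψ ↔ ¬ (j.comp ((cc L * σ : L ≃ₐ[ℚ] L) : L →+* L) ∈ Ψ)
  rw [comp_cc]
  exact h _

theorem typeOf_injective (j : L →+* ℂ) : Function.Injective (typeOf j) := by
  intro S S' h
  ext σ
  rw [← mem_typeOf j S, ← mem_typeOf j S', h]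

theorem typeOf_singleton (j : L →+* ℂ) (σ : L ≃ₐ[ℚ] L) :
    typeOf j {σ} = {j.comp (σ : L →+* L)} := by
  unfold typeOf
  rw [Set.image_singleton]

theorem ybI_mem (j : L →+* ℂ) (ι : B.E →+* L) (r : Fin 4 → Set (L ≃ₐ[ℚ] L))
    (hr : ∀ k, IsHalf (r k)) (h3 : r 3 = kap B j ι) (σ : L ≃ₐ[ℚ] L) (h01 : r 0 ∩ r 1 = {σ})
    (h23 : r 2 ∩ r 3 = {cc L * σ})
    (hsp : SpecialAlg T B L ι (typeOf j (r 0)) (j.comp (σ : L →+* L))) :
    mono (ybI j ι r hr) ∈ LSp T L (yb (B := B) j r hr) (Fin 4) := by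
  obtain ⟨Ψ, hΨ, f, e0, e1, e2, hf, hT⟩ := hsp
  have hΨ' : Ψ = fun i => typeOf j (r i.castSucc) := by
    funext i
    fin_cases i
    · exact e0
    · obtain ⟨S1, hS1, hS1'⟩ := exists_half j (hΨ 1)
      change Ψ 1 = typeOf j (r 1)
      rw [hS1']
      congr 1
      refine half_unique (hr 0) hS1 (hr 1) ?_
      rw [h01]
      apply typeOf_injective j
      rw [typeOf_singleton, ← e1, e0, hS1', typeOf_inter]
    · obtain ⟨S2, hS2, hS2'⟩ := exists_half j (hΨ 2)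
      change Ψ 2 = typeOf j (r 2)
      rw [hS2']
      congr 1
      refine half_unique (hr 3) hS2 (hr 2) ?_
      rw [Set.inter_comm (r 3) (r 2), h23, Set.inter_comm]
      apply typeOf_injective j
      rw [typeOf_singleton, comp_cc, ← e2, hS2', ← typeOf_inter, h3, typeOf_kap]
      rfl
  subst hΨ'
  exact spI_mem ι _ hΨ f hf hT

theorem alg_weilB (j : L →+* ℂ) (ι : B.E →+* L) (r : Fin 4 → Set (L ≃ₐ[ℚ] L))
    (hr : ∀ k, IsHalf (r k)) (h3 : r 3 = kap B j ι) (σ : L ≃ₐ[ℚ] L) (h01 : r 0 ∩ r 1 = {σ})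
    (h23 : r 2 ∩ r 3 = {cc L * σ})
    (hsp : SpecialAlg T B L ι (typeOf j (r 0)) (j.comp (σ : L →+* L))) : Alg T j r := by
  refine alg_of_can j r hr ?_
  obtain ⟨n, a, b, hab⟩ := exists_rdual ι
  have h0 := ybI_mem j ι r hr h3 σ h01 h23 hsp
  have h1 : mono (canI j r hr) = ∑ i, b i • (fun v : Fin 4 → (can j r hr).H1 =>
      mono (ybI j ι r hr) (fun k => toYB j ι r hr (a i) (v k))) := by
    funext v
    rw [Finset.sum_apply]
    simp only [Pi.smul_apply, smul_eq_mul]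
    rw [mono_apply]
    simp only [mono_apply, Finset.mul_sum]
    rw [Finset.sum_comm]
    refine Finset.sum_congr rfl fun τ _ => ?_
    simp only [Fin.prod_univ_four]
    have h2 : ev (v (τ 3)) (canI j r hr 3) = ∑ i, b i * ι (rtr ι (a i * (v (τ 3) 3 : L))) :=
      hab (v (τ 3) 3)
    rw [h2, Finset.mul_sum, Finset.mul_sum]
    refine Finset.sum_congr rfl fun i _ => ?_
    have h4 : ev (toYB j ι r hr (a i) (v (τ 0))) (ybI j ι r hr 0) = ev (v (τ 0)) (canI j r hr 0) :=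
      rfl
    have h5 : ev (toYB j ι r hr (a i) (v (τ 1))) (ybI j ι r hr 1) = ev (v (τ 1)) (canI j r hr 1) :=
      rfl
    have h6 : ev (toYB j ι r hr (a i) (v (τ 2))) (ybI j ι r hr 2) = ev (v (τ 2)) (canI j r hr 2) :=
      rfl
    have h7 : ev (toYB j ι r hr (a i) (v (τ 3))) (ybI j ι r hr 3) =
      ι (rtr ι (a i * (v (τ 3) 3 : L))) := rfl
    rw [h4, h5, h6, h7]
    ring
  rw [h1]
  exact Submodule.sum_mem _ fun i _ => Submodule.smul_mem _ _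
    (LSp.pull (isHom_toYB j ι r hr h3 (a i)) h0)

end

end Pool.Agent.W547.OC
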